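import Mathlib
import Pool.Agent.H6.Win.ZetaLoc

/-!
# Definitions: zeros near the line `Re s = 1` are crowded or rare
-/

set_option autoImplicit false

open Complex

namespace Pool.Agent.H76.CR

/-- The number of distinct zeros of `ζ` within distance `r` of `ρ`. -/
noncomputable def nearZeros (r : ℝ) (ρ : ℂ) : ℕ :=
  {u : ℂ | riemannZeta u = 0 ∧ ‖u - ρ‖ ≤ r}.ncard

/-- The coefficients `Λ(n) (log n)^k / k! · n^(-1-a)`. -/
noncomputable def dco (a : ℝ) (k n : ℕ) : ℝ :=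
  ArithmeticFunction.vonMangoldt n * (Real.log n ^ k / (k.factorial : ℝ)) * (n : ℝ) ^ (-(1 + a))

/-- `∑_n Λ(n) (log n)^k / k! · n^(-1-a-it)`, the normalised `k`-th derivative of `-ζ'/ζ`. -/
noncomputable def Dk (a : ℝ) (k : ℕ) (t : ℝ) : ℂ :=
  ∑' n : ℕ, (dco a k n : ℂ) * (n : ℂ) ^ (-(t * I))

/-- the point `1 + a + it` -/
noncomputable def pt (a t : ℝ) : ℂ := ((1 + a : ℝ) : ℂ) + t * I

end Pool.Agent.H76.CR
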