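import Mathlib
import Pool.Agent.H76.CR.Defs

/-!
# DerivL: `Dk` is the normalised `k`-th derivative of the L-series of `Λ`

`LSeries_iteratedDeriv` : `iteratedDeriv m (LSeries f) s = (-1)^m * LSeries (logMul^[m] f) s` for
`abscissaOfAbsConv f < s.re` (for `Λ` the abscissa is at most `1`:
`ArithmeticFunction.LSeriesSummable_vonMangoldt`).  `logMul f n = log n * f n`, so
`logMul^[k] f n = (log n)^k f n`.  `LSeries.term` at `n = 0` is `0`, and `Λ 0 = 0`; for `n ≥ 1`,
`(n:ℂ)^(-(t I)) * (n:ℝ)^(-(1+a)) = 1 / n^(1+a+it)` (`Complex.cpow_add`, `Complex.ofReal_cpow`).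
`summable_dco`: absolute convergence (`LSeriesSummable` of the iterated `logMul`, or compare
`(log n)^k ≤ C n^(a/2)`).  About 80 lines.
-/

set_option autoImplicit false

open Complex

namespace Pool.Agent.H76.CR

theorem dco_nonneg (a : ℝ) (k n : ℕ) : 0 ≤ dco a k n := by
  unfold dco
  have h1 : 0 ≤ ArithmeticFunction.vonMangoldt n := ArithmeticFunction.vonMangoldt_nonneg
  have h2 : 0 ≤ Real.log n := Real.log_natCast_nonneg n
  positivity

private noncomputable abbrev LamC : ℕ → ℂ := fun n => (ArithmeticFunction.vonMangoldt n : ℂ)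

private theorem iter_logMul (f : ℕ → ℂ) (k n : ℕ) :
    (LSeries.logMul^[k] f) n = (Complex.log n) ^ k * f n := by
  induction k generalizing f with
  | zero => simp
  | succ k ih =>
    rw [Function.iterate_succ_apply, ih]
    simp only [LSeries.logMul]
    ring

private theorem absc_lt {a : ℝ} (ha : 0 < a) (t : ℝ) :
    LSeries.abscissaOfAbsConv LamC < ((pt a t).re : ℝ) := by
  have hre : (pt a t).re = 1 + a := by simp [pt]
  rw [hre]
  have h1 : LSeriesSummable LamC ((1 + a / 2 : ℝ) : ℂ) := by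
    apply ArithmeticFunction.LSeriesSummable_vonMangoldt
    simp; linarith
  have h2 := LSeriesSummable.abscissaOfAbsConv_le h1
  refine lt_of_le_of_lt h2 ?_
  rw [Complex.ofReal_re]
  exact_mod_cast (by linarith : 1 + a / 2 < 1 + a)

private theorem term_eq {a : ℝ} (k : ℕ) (t : ℝ) (n : ℕ) :
    LSeries.term (LSeries.logMul^[k] LamC) (pt a t) n =
      (k.factorial : ℂ) * ((dco a k n : ℂ) * (n : ℂ) ^ (-(t * I))) := by
  rcases Nat.eq_zero_or_pos n with rfl | hn
  · simp [dco]
  · rw [LSeries.term_of_ne_zero hn.ne', iter_logMul]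
    have hn0 : (n : ℂ) ≠ 0 := by exact_mod_cast hn.ne'
    have hk : (k.factorial : ℂ) ≠ 0 := by exact_mod_cast k.factorial_ne_zero
    have e1 : ((n : ℝ) ^ (-(1 + a)) : ℝ) = (n : ℂ) ^ ((-(1 + a) : ℝ) : ℂ) := by
      rw [Complex.ofReal_cpow (by positivity)]
      simp
    have e2 : (n : ℂ) ^ ((-(1 + a) : ℝ) : ℂ) * (n : ℂ) ^ (-(t * I)) = ((n : ℂ) ^ (pt a t))⁻¹ := by
      rw [← Complex.cpow_add _ _ hn0, ← Complex.cpow_neg]
      congr 1
      simp [pt]
      ring
    unfold dco
    push_cast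
    rw [e1]
    rw [show (k.factorial : ℂ) * (((ArithmeticFunction.vonMangoldt n : ℝ) : ℂ) *
        (Complex.log n ^ k / (k.factorial : ℂ)) * (n : ℂ) ^ ((-(1 + a) : ℝ) : ℂ) *
        (n : ℂ) ^ (-(t * I))) = (((ArithmeticFunction.vonMangoldt n : ℝ) : ℂ) *
        Complex.log n ^ k) * ((n : ℂ) ^ ((-(1 + a) : ℝ) : ℂ) * (n : ℂ) ^ (-(t * I))) by
      field_simp, e2]
    rw [div_eq_mul_inv]
    ring

private theorem summ {a : ℝ} (ha : 0 < a) (k : ℕ) (t : ℝ) :
    LSeriesSummable (LSeries.logMul^[k] LamC) (pt a t) := by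
  apply LSeriesSummable_of_abscissaOfAbsConv_lt_re
  rw [LSeries.absicssaOfAbsConv_logPowMul]
  exact absc_lt ha t

theorem summable_dco {a : ℝ} (ha : 0 < a) (k : ℕ) : Summable (dco a k) := by
  have h := (summ ha k 0).norm
  have hk : (0 : ℝ) < k.factorial := by positivity
  have h2 : (fun n => ‖LSeries.term (LSeries.logMul^[k] LamC) (pt a 0) n‖) =
      fun n => (k.factorial : ℝ) * dco a k n := by
    funext n
    rw [term_eq]
    simp only [Complex.ofReal_zero, zero_mul, neg_zero, Complex.cpow_zero, mul_one, norm_mul,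
      Complex.norm_natCast, Complex.norm_real, Real.norm_eq_abs, abs_of_nonneg (dco_nonneg a k n)]
  rw [h2] at h
  exact (summable_mul_left_iff hk.ne').mp h

theorem Dk_eq {a : ℝ} (ha : 0 < a) (k : ℕ) (t : ℝ) :
    Dk a k t = (-1) ^ k / (k.factorial : ℂ) *
      iteratedDeriv k (LSeries (fun n => (ArithmeticFunction.vonMangoldt n : ℂ))) (pt a t) := by
  have h := LSeries_iteratedDeriv (f := LamC) k (absc_lt ha t)
  have hk : (k.factorial : ℂ) ≠ 0 := by exact_mod_cast k.factorial_ne_zero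
  rw [show (fun n => (ArithmeticFunction.vonMangoldt n : ℂ)) = LamC from rfl, h]
  have h3 : LSeries (LSeries.logMul^[k] LamC) (pt a t) = (k.factorial : ℂ) * Dk a k t := by
    unfold LSeries Dk
    rw [← tsum_mul_left]
    congr 1
    funext n
    exact term_eq k t n
  rw [h3]
  have h4 : ((-1 : ℂ) ^ k) * (-1) ^ k = 1 := by
    rw [← mul_pow]; simp
  field_simp
  linear_combination (-(Dk a k t)) * h4

end Pool.Agent.H76.CR
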