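import Mathlib
import Pool.Agent.H76.CR.Defs
import Pool.Agent.H6.Win.Hfun

/-!
# ZFacts: `zetaPole` versus `riemannZeta` away from `1`

`zetaPole = Function.update (fun s => (s - 1) * riemannZeta s) 1 1`.  For `u ≠ 1` the zeros agree and
(multiplication by the unit `s - 1`) so do the orders (`analyticOrderAt_mul`,
`analyticOrderAt_congr`).  Finiteness: the zeros of `zetaPole` in a ball are finite
(`zeros_finite` in `H6/Win/ZetaLoc.lean`, a ball around `ρ` lies in some `closedBall 2 R`).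
`re_lt_one`: `riemannZeta_ne_zero_of_one_le_re`.  `card_le_near`: `S ⊆` the finite set whose `ncard`
is `nearZeros`.  About 80 lines.
-/

set_option autoImplicit false

open Complex Metric

namespace Pool.Agent.H76.CR

open Pool.Agent.H6 Pool.Agent.H6.Win

theorem zetaPole_eq_zero_iff {u : ℂ} (hu : u ≠ 1) : zetaPole u = 0 ↔ riemannZeta u = 0 := by
  unfold zetaPole
  rw [Function.update_of_ne hu, mul_eq_zero, or_iff_right (sub_ne_zero.2 hu)]

private theorem zeta_analyticAt {u : ℂ} (hu : u ≠ 1) : AnalyticAt ℂ riemannZeta u := by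
  have h1 : DifferentiableOn ℂ riemannZeta {1}ᶜ := fun z hz =>
    (differentiableAt_riemannZeta hz).differentiableWithinAt
  exact h1.analyticAt (isOpen_compl_singleton.mem_nhds hu)

theorem zord_eq {u : ℂ} (hu : u ≠ 1) : zord u = analyticOrderNatAt riemannZeta u := by
  have h1 : zetaPole =ᶠ[nhds u] (fun s => s - 1) * riemannZeta := by
    filter_upwards [isOpen_compl_singleton.mem_nhds hu] with z hz
    unfold zetaPole
    rw [Function.update_of_ne hz]
    rfl
  have h2 : AnalyticAt ℂ (fun s : ℂ => s - 1) u := analyticAt_id.sub analyticAt_const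
  have h3 : analyticOrderAt (fun s : ℂ => s - 1) u = 0 :=
    h2.analyticOrderAt_eq_zero.2 (sub_ne_zero.2 hu)
  unfold zord analyticOrderNatAt
  rw [analyticOrderAt_congr h1, analyticOrderAt_mul h2 (zeta_analyticAt hu), h3, zero_add]

theorem re_lt_one {u : ℂ} (hu : riemannZeta u = 0) : u.re < 1 := by
  by_contra h
  exact riemannZeta_ne_zero_of_one_le_re (not_lt.1 h) hu

theorem near_finite {r : ℝ} {ρ : ℂ} (h : r < |ρ.im|) :
    {u : ℂ | riemannZeta u = 0 ∧ ‖u - ρ‖ ≤ r}.Finite := by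
  refine (zeros_finite (‖ρ - 2‖ + r)).subset ?_
  rintro u ⟨hu, hr⟩
  have hu1 : u ≠ 1 := by
    rintro rfl
    have h1 : |((1 : ℂ) - ρ).im| ≤ ‖(1 : ℂ) - ρ‖ := abs_im_le_norm _
    rw [sub_im, one_im, zero_sub, abs_neg] at h1
    linarith
  refine ⟨?_, (zetaPole_eq_zero_iff hu1).2 hu⟩
  rw [mem_closedBall, dist_eq_norm]
  calc ‖u - 2‖ = ‖(u - ρ) + (ρ - 2)‖ := by congr 1; ring
    _ ≤ ‖u - ρ‖ + ‖ρ - 2‖ := norm_add_le _ _
    _ ≤ ‖ρ - 2‖ + r := by linarith

theorem card_le_near {r : ℝ} {ρ : ℂ} (h : r < |ρ.im|) (S : Finset ℂ)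
    (hS : ∀ u ∈ S, riemannZeta u = 0 ∧ ‖u - ρ‖ ≤ r) : S.card ≤ nearZeros r ρ := by
  unfold nearZeros
  rw [← Set.ncard_coe_finset S]
  exact Set.ncard_le_ncard (fun u hu => hS u hu) (near_finite h)

end Pool.Agent.H76.CR
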