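import Mathlib
import Pool.Agent.H6.Win.Hfun

/-!
# Hloc: the regularised logarithmic derivative on a disc around `2 + it`

Copy the proof of `Pool.Agent.H6.Win.exists_H` (file `H6/Win/Hfun.lean`), which does the same on a
big rectangle.  Here everything is local: `zeta_loc` with `σ1 = 5/8`, `σ2 = 11/16` gives `S` (the
zeros of `zetaPole` in `closedBall (2+it) (11/8)`) and the bound for `deriv zetaPole z / zetaPole z -
∑` on `closedBall (2+it) (21/16)` off the zeros.  The analytic function: factor `zetaPole` by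
`exists_factor` on `closedBall (2+it) R`, `R` slightly larger than `11/8` (or `3/2`), put the factors
belonging to `S` aside (`order_eq_of_factor`), `H = -(deriv g1 / g1)`; `H = hline S` off the zeros,
the bound extends to all points of `closedBall (2+it) (5/4)` by continuity (`zetaPole_eventually_ne`).
On `1 < re` there are no zeros.  About 130 lines.
-/

set_option autoImplicit false

open Complex Metric Filter Topology Set

namespace Pool.Agent.H76.CR

open Pool.Agent.H6 Pool.Agent.H6.Win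

theorem exists_Hloc : ∃ C : ℝ, 0 < C ∧ ∀ t : ℝ, ∃ (S : Finset ℂ) (H : ℂ → ℂ),
    (∀ u, u ∈ S ↔ (u ∈ closedBall ((2:ℂ) + t * I) (11 / 8) ∧ zetaPole u = 0)) ∧
    (∀ u ∈ S, 1 ≤ zord u) ∧
    (∑ u ∈ S, (zord u : ℝ)) ≤ C * Real.log (|t| + 2) ∧
    (∀ z ∈ closedBall ((2:ℂ) + t * I) (5 / 4),
      DifferentiableAt ℂ H z ∧ ‖H z‖ ≤ C * Real.log (|t| + 2)) ∧
    ∀ z ∈ closedBall ((2:ℂ) + t * I) (5 / 4), 1 < z.re → H z = hline S z := by
  classical
  obtain ⟨C, hC, hloc⟩ := zeta_loc (σ1 := 5 / 8) (σ2 := 11 / 16) (by norm_num) (by norm_num)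
    (by norm_num)
  have e118 : (2:ℝ) - 5 / 8 = 11 / 8 := by norm_num
  have e2116 : (2:ℝ) - 11 / 16 = 21 / 16 := by norm_num
  rw [e118, e2116] at hloc
  refine ⟨C, hC, fun t => ?_⟩
  obtain ⟨S, hS1, hS2, hS3, hS4⟩ := hloc t
  set c : ℂ := (2:ℂ) + t * I with hc
  have hcre : c.re = 2 := by rw [hc]; simp
  set Ω : Set ℂ := ball c (21 / 16) with hΩ
  have hΩo : IsOpen Ω := isOpen_ball
  have hcne : zetaPole c ≠ 0 := zetaPole_ne_zero_of_one_le (by rw [hcre]; norm_num)
  obtain ⟨S2, n, g, hg, hgne, hS, hfac⟩ := exists_factor (r := 3 / 2) (by norm_num)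
    (f := zetaPole) (c := c) (fun z _ => zetaPole_analyticAt z) hcne
  have hΩball : Ω ⊆ ball c (3 / 2) := ball_subset_ball (by norm_num)
  have hSball : ∀ u ∈ S, u ∈ ball c (3 / 2) := by
    intro u hu
    have := ((hS1 u).1 hu).1
    rw [mem_closedBall] at this
    rw [mem_ball]
    linarith
  have hfact0 : ∀ z ∈ closedBall c (3 / 2), zetaPole z = 0 → z ∈ S2 ∧ n z ≠ 0 := by
    intro z hz h0
    have h3 := h0
    rw [hfac z hz] at h3
    rcases mul_eq_zero.1 h3 with h | h
    · rw [Finset.prod_eq_zero_iff] at h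
      obtain ⟨v, hv, h4⟩ := h
      have h5 : z - v = 0 := by
        by_contra h6
        exact (pow_ne_zero _ h6) h4
      have h6 : n v ≠ 0 := by
        intro h7
        rw [h7, pow_zero] at h4
        exact one_ne_zero h4
      have h8 : v = z := (sub_eq_zero.1 h5).symm
      subst h8
      exact ⟨hv, h6⟩
    · exact absurd h (hgne z hz)
  have hZS2 : S ⊆ S2 := fun u hu =>
    (hfact0 u (ball_subset_closedBall (hSball u hu)) ((hS1 u).1 hu).2).1
  have hord : ∀ u ∈ S, zord u = n u := fun u hu =>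
    order_eq_of_factor hg hgne (fun z _ => zetaPole_analyticAt z) hfac (hZS2 hu) (hSball u hu)
  set g1 : ℂ → ℂ := fun z => (∏ u ∈ S2 \ S, (z - u) ^ (n u)) * g z with hg1
  have hfac' : ∀ z ∈ closedBall c (3 / 2),
      zetaPole z = (∏ u ∈ S, (z - u) ^ (n u)) * g1 z := by
    intro z hz
    rw [hfac z hz, hg1]
    simp only
    rw [← mul_assoc]
    congr 1
    rw [mul_comm]
    exact (Finset.prod_sdiff hZS2).symm
  have hg1an : ∀ s ∈ Ω, AnalyticAt ℂ g1 s := by
    intro s hs
    apply AnalyticAt.mul _ (hg s (ball_subset_closedBall (hΩball hs)))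
    apply Finset.analyticAt_fun_prod
    intro u _
    exact ((analyticAt_id.sub analyticAt_const).pow _)
  have hg1ne : ∀ s ∈ Ω, g1 s ≠ 0 := by
    intro s hs
    have hs2 := ball_subset_closedBall (hΩball hs)
    refine mul_ne_zero (Finset.prod_ne_zero_iff.2 fun u hu => ?_) (hgne s hs2)
    rw [Finset.mem_sdiff] at hu
    by_cases hnu : n u = 0
    · rw [hnu, pow_zero]; exact one_ne_zero
    · apply pow_ne_zero
      intro h
      have h1 : u = s := (sub_eq_zero.1 h).symm
      subst h1
      apply hu.2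
      rw [hS1]
      refine ⟨?_, (hS u hu.1).2⟩
      rw [hΩ, mem_ball] at hs
      rw [mem_closedBall]
      linarith
  set H : ℂ → ℂ := fun s => -(deriv g1 s / g1 s) with hH
  have hHd : ∀ s ∈ Ω, DifferentiableAt ℂ H s := by
    intro s hs
    exact ((hg1an s hs).deriv.differentiableAt.div (hg1an s hs).differentiableAt (hg1ne s hs)).neg
  have hHeq : ∀ s ∈ Ω, zetaPole s ≠ 0 → H s = hline S s := by
    intro s hs hs0
    have hzu : ∀ u ∈ S, s - u ≠ 0 := by
      intro u hu h
      have : u = s := (sub_eq_zero.1 h).symm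
      rw [this, hS1] at hu
      exact hs0 hu.2
    have e1 : deriv zetaPole s / zetaPole s = (∑ u ∈ S, (n u : ℂ) / (s - u)) +
        deriv g1 s / g1 s := by
      have h1 : zetaPole =ᶠ[𝓝 s] fun z => (∏ u ∈ S, (z - u) ^ (n u)) * g1 z := by
        filter_upwards [isOpen_ball.mem_nhds (hΩball hs)] with w hw
        exact hfac' w (ball_subset_closedBall hw)
      have h2 : logDeriv zetaPole s = logDeriv (fun z => (∏ u ∈ S, (z - u) ^ (n u)) * g1 z) s := by
        rw [logDeriv_apply, logDeriv_apply, h1.deriv_eq, h1.self_of_nhds]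
      rw [← logDeriv_apply, ← logDeriv_apply, h2, logDeriv_mul]
      · congr 1
        rw [logDeriv_prod]
        · refine Finset.sum_congr rfl fun u hu => ?_
          rw [logDeriv_fun_pow (by fun_prop), logDeriv_apply]
          simp [div_eq_mul_inv]
        · intro u hu
          exact pow_ne_zero _ (hzu u hu)
        · intro u hu
          fun_prop
      · exact Finset.prod_ne_zero_iff.2 fun u hu => pow_ne_zero _ (hzu u hu)
      · exact hg1ne s hs
      · fun_prop
      · exact (hg1an s hs).differentiableAt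
    have e2 : ∑ u ∈ S, (zord u : ℂ) / (s - u) = ∑ u ∈ S, (n u : ℂ) / (s - u) :=
      Finset.sum_congr rfl fun u hu => by rw [hord u hu]
    rw [hline, e1, e2, hH]
    ring
  have hin : ∀ z ∈ closedBall c (5 / 4), z ∈ Ω := by
    intro z hz
    rw [mem_closedBall] at hz
    rw [hΩ, mem_ball]
    linarith
  refine ⟨S, H, hS1, hS2, hS3, ?_, ?_⟩
  · intro s hs
    have hsΩ : s ∈ Ω := hin s hs
    refine ⟨hHd s hsΩ, ?_⟩
    have hcont : Tendsto (fun z => ‖H z‖) (𝓝[≠] s) (𝓝 ‖H s‖) :=
      ((hHd s hsΩ).continuousAt.norm).tendsto.mono_left nhdsWithin_le_nhds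
    refine le_of_tendsto hcont ?_
    filter_upwards [zetaPole_eventually_ne s, mem_nhdsWithin_of_mem_nhds (hΩo.mem_nhds hsΩ)]
      with z hz1 hz2
    rw [hHeq z hz2 hz1]
    have h5 := hS4 z (ball_subset_closedBall hz2) hz1
    have h6 : hline S z = -(deriv zetaPole z / zetaPole z - ∑ u ∈ S, (zord u : ℂ) / (z - u)) := by
      rw [hline]; ring
    rw [h6, norm_neg]
    exact h5
  · intro z hz hz1
    exact hHeq z (hin z hz) (zetaPole_ne_zero_of_one_le hz1.le)

end Pool.Agent.H76.CR
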