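import Mathlib

/-!
# Circ: two Cauchy integrals over the circle `|x - 1| = q < 1`

`x ↦ (x^(k+1))⁻¹` is holomorphic on a neighbourhood of the closed disc (`0` is outside, `q < 1`).
`circ_in`: Cauchy's formula (`DiffContOnCl.circleIntegral_sub_inv_smul` or
`Complex.circleIntegral_sub_inv_smul_of_differentiable_on_off_countable`).
`circ_out`: the integrand is holomorphic on the closed disc, the integral is `0`
(`Complex.circleIntegral_eq_zero_of_differentiable_on_off_countable`).  About 50 lines.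
-/

set_option autoImplicit false

open Complex

namespace Pool.Agent.H76.CR

private lemma ne_zero_of_closedBall {q : ℝ} (hq1 : q < 1) {x : ℂ}
    (hx : x ∈ Metric.closedBall (1 : ℂ) q) : x ≠ 0 := by
  rintro rfl
  rw [Metric.mem_closedBall, dist_eq_norm] at hx
  simp at hx
  linarith

theorem circ_in {q : ℝ} (hq : 0 < q) (hq1 : q < 1) {w : ℂ} (hw : ‖w - 1‖ < q) (k : ℕ) :
    (2 * (Real.pi : ℂ) * I)⁻¹ * ∮ x in C(1, q), (x ^ (k + 1))⁻¹ / (x - w) = (w ^ (k + 1))⁻¹ := by
  have hwb : w ∈ Metric.ball (1 : ℂ) q := by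
    rw [Metric.mem_ball, dist_eq_norm]; exact hw
  have hd : ∀ x ∈ Metric.closedBall (1 : ℂ) q, DifferentiableAt ℂ (fun x : ℂ => (x ^ (k + 1))⁻¹) x := by
    intro x hx
    have h0 := ne_zero_of_closedBall hq1 hx
    exact (differentiableAt_id.pow _).inv (pow_ne_zero _ h0)
  have h := Complex.circleIntegral_sub_inv_smul_of_differentiable_on_off_countable
    (f := fun x : ℂ => (x ^ (k + 1))⁻¹) (s := ∅) Set.countable_empty hwb
    (fun x hx => (hd x hx).continuousAt.continuousWithinAt)
    (fun x hx => hd x (Metric.ball_subset_closedBall hx.1))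
  have h2 : (∮ x in C(1, q), (x ^ (k + 1))⁻¹ / (x - w)) =
      ∮ x in C(1, q), (x - w)⁻¹ • (x ^ (k + 1))⁻¹ := by
    congr 1
    funext x
    rw [smul_eq_mul, div_eq_mul_inv, mul_comm]
  rw [h2, h, smul_eq_mul, ← mul_assoc, inv_mul_cancel₀ Complex.two_pi_I_ne_zero, one_mul]

theorem circ_out {q : ℝ} (hq : 0 < q) (hq1 : q < 1) {w : ℂ} (hw : q < ‖w - 1‖) (k : ℕ) :
    ∮ x in C(1, q), (x ^ (k + 1))⁻¹ / (x - w) = 0 := by
  have hd : ∀ x ∈ Metric.closedBall (1 : ℂ) q,
      DifferentiableAt ℂ (fun x : ℂ => (x ^ (k + 1))⁻¹ / (x - w)) x := by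
    intro x hx
    have h0 := ne_zero_of_closedBall hq1 hx
    have h1 : x - w ≠ 0 := by
      intro h
      have : x = w := sub_eq_zero.mp h
      rw [this, Metric.mem_closedBall, dist_eq_norm] at hx
      linarith
    exact ((differentiableAt_id.pow _).inv (pow_ne_zero _ h0)).div
      (differentiableAt_id.sub_const _) h1
  exact Complex.circleIntegral_eq_zero_of_differentiable_on_off_countable hq.le
    (s := ∅) Set.countable_empty
    (fun x hx => (hd x hx).continuousAt.continuousWithinAt)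
    (fun x hx => hd x (Metric.ball_subset_closedBall hx.1))

end Pool.Agent.H76.CR
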