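import Mathlib

/-!
# DivDiff: divided differences of `∏ (x - w)`

Induction on `W`, together with the auxiliary statement: `∏ w ∈ W, (z - w) = ∑ j ≤ card, p j * z^j`
with `∑ j ≤ card ‖p j‖ ≤ 3 ^ card` (each step multiplies by `z - w`, `‖w‖ ≤ 2`).
Step: `(x-v) P(x) - (z-v) P(z) = (x-v) (P(x) - P(z)) + (x-z) P(z)`, so
`e' j x = (x - v) * e j x + p j` for `j ≤ card` (`e card = 0` by convention, e.g. use functions that
vanish for `j ≥ card`), and `∑ ‖e' j x‖ ≤ 4 * 8^card + 3^card ≤ 8^(card+1)` for `‖x‖ ≤ 2`.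
About 80 lines.
-/

set_option autoImplicit false

open Complex

namespace Pool.Agent.H76.CR

private theorem aux (W : Finset ℂ) : (∀ w ∈ W, ‖w‖ ≤ 2) →
    ∃ (p : ℕ → ℂ) (e : ℕ → ℂ → ℂ), (∀ j, W.card < j → p j = 0) ∧
      (∀ j, W.card ≤ j → ∀ x, e j x = 0) ∧
      (∀ z : ℂ, ∏ w ∈ W, (z - w) = ∑ j ∈ Finset.range (W.card + 1), p j * z ^ j) ∧
      (∑ j ∈ Finset.range (W.card + 1), ‖p j‖ ≤ 3 ^ W.card) ∧
      (∀ j, Continuous (e j)) ∧
      (∀ x : ℂ, ‖x‖ ≤ 2 → ∑ j ∈ Finset.range W.card, ‖e j x‖ ≤ 8 ^ W.card) ∧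
      ∀ x z : ℂ, (∑ j ∈ Finset.range W.card, e j x * z ^ j) * (x - z) =
        ∏ w ∈ W, (x - w) - ∏ w ∈ W, (z - w) := by
  induction W using Finset.induction_on with
  | empty =>
    intro _
    refine ⟨fun j => if j = 0 then 1 else 0, fun _ _ => 0, ?_, ?_, ?_, ?_, ?_, ?_, ?_⟩
    · intro j hj
      have : j ≠ 0 := by simp at hj; omega
      simp [this]
    · intro j _ x; rfl
    · intro z; simp
    · simp
    · intro j; exact continuous_const
    · intro x _; simp
    · intro x z; simp
  | insert v W hv ih =>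
    intro hW
    obtain ⟨p, e, hp0, he0, hp, hpn, hec, hen, hed⟩ :=
      ih (fun w hw => hW w (Finset.mem_insert_of_mem hw))
    have hvn : ‖v‖ ≤ 2 := hW v (Finset.mem_insert_self _ _)
    have hcard : (insert v W).card = W.card + 1 := Finset.card_insert_of_notMem hv
    refine ⟨fun j => (Nat.casesOn j 0 (fun k => p k) : ℂ) - v * p j,
      fun j x => (x - v) * e j x + p j * (if j ≤ W.card then 1 else 0), ?_, ?_, ?_, ?_, ?_, ?_, ?_⟩
    · intro j hj
      rw [hcard] at hj
      obtain ⟨k, rfl⟩ : ∃ k, j = k + 1 := ⟨j - 1, by omega⟩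
      have h1 : p k = 0 := hp0 k (by omega)
      have h2 : p (k + 1) = 0 := hp0 (k + 1) (by omega)
      simp [h1, h2]
    · intro j hj x
      rw [hcard] at hj
      have h1 : ¬ (j ≤ W.card) := by omega
      have h2 : e j x = 0 := he0 j (by omega) x
      simp [h1, h2]
    · intro z
      rw [Finset.prod_insert hv, hcard, hp z]
      have h1 : ∑ j ∈ Finset.range (W.card + 1 + 1),
          ((Nat.casesOn j 0 (fun k => p k) : ℂ) - v * p j) * z ^ j =
          ∑ j ∈ Finset.range (W.card + 1 + 1), (Nat.casesOn j 0 (fun k => p k) : ℂ) * z ^ j -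
          v * ∑ j ∈ Finset.range (W.card + 1 + 1), p j * z ^ j := by
        rw [Finset.mul_sum, ← Finset.sum_sub_distrib]
        refine Finset.sum_congr rfl fun j _ => ?_
        ring
      have h2 : ∑ j ∈ Finset.range (W.card + 1 + 1), (Nat.casesOn j 0 (fun k => p k) : ℂ) * z ^ j =
          z * ∑ j ∈ Finset.range (W.card + 1), p j * z ^ j := by
        rw [Finset.sum_range_succ', Finset.mul_sum]
        change ∑ k ∈ Finset.range (W.card + 1), p k * z ^ (k + 1) + 0 * z ^ 0 = _
        rw [zero_mul, add_zero]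
        refine Finset.sum_congr rfl fun j _ => ?_
        ring
      have h3 : ∑ j ∈ Finset.range (W.card + 1 + 1), p j * z ^ j =
          ∑ j ∈ Finset.range (W.card + 1), p j * z ^ j := by
        rw [Finset.sum_range_succ, hp0 (W.card + 1) (by omega)]
        simp
      rw [h1, h2, h3]
      ring
    · rw [hcard]
      have h2 : ∑ j ∈ Finset.range (W.card + 1 + 1), ‖(Nat.casesOn j 0 (fun k => p k) : ℂ)‖ =
          ∑ j ∈ Finset.range (W.card + 1), ‖p j‖ := by
        rw [Finset.sum_range_succ']
        simp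
      have h3 : ∑ j ∈ Finset.range (W.card + 1 + 1), ‖p j‖ =
          ∑ j ∈ Finset.range (W.card + 1), ‖p j‖ := by
        rw [Finset.sum_range_succ, hp0 (W.card + 1) (by omega)]
        simp
      calc ∑ j ∈ Finset.range (W.card + 1 + 1), ‖(Nat.casesOn j 0 (fun k => p k) : ℂ) - v * p j‖
          ≤ ∑ j ∈ Finset.range (W.card + 1 + 1),
            (‖(Nat.casesOn j 0 (fun k => p k) : ℂ)‖ + 2 * ‖p j‖) := by
            refine Finset.sum_le_sum fun j _ => ?_
            refine (norm_sub_le _ _).trans ?_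
            rw [norm_mul]
            have := mul_le_mul_of_nonneg_right hvn (norm_nonneg (p j))
            linarith
        _ = ∑ j ∈ Finset.range (W.card + 1), ‖p j‖ +
            2 * ∑ j ∈ Finset.range (W.card + 1), ‖p j‖ := by
            rw [Finset.sum_add_distrib, ← Finset.mul_sum, h2, h3]
        _ ≤ 3 ^ (W.card + 1) := by
            rw [pow_succ]
            linarith
    · intro j
      exact ((continuous_id.sub continuous_const).mul (hec j)).add continuous_const
    · intro x hx
      rw [hcard]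
      have h1 : ∀ j ∈ Finset.range (W.card + 1),
          ‖(x - v) * e j x + p j * (if j ≤ W.card then 1 else 0)‖ ≤ 4 * ‖e j x‖ + ‖p j‖ := by
        intro j hj
        have hj' : j ≤ W.card := by
          have := Finset.mem_range.mp hj
          omega
        simp only [hj', if_true, mul_one]
        refine (norm_add_le _ _).trans ?_
        rw [norm_mul]
        have h4 : ‖x - v‖ ≤ 4 := (norm_sub_le _ _).trans (by linarith)
        have := mul_le_mul_of_nonneg_right h4 (norm_nonneg (e j x))
        linarith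
      refine (Finset.sum_le_sum h1).trans ?_
      rw [Finset.sum_add_distrib, ← Finset.mul_sum, Finset.sum_range_succ,
        he0 W.card le_rfl x, norm_zero, add_zero]
      have h5 := hen x hx
      have h6 : (3 : ℝ) ^ W.card ≤ 8 ^ W.card := pow_le_pow_left₀ (by norm_num) (by norm_num) _
      have h7 : (0 : ℝ) ≤ 8 ^ W.card := by positivity
      rw [pow_succ]
      linarith
    · intro x z
      rw [Finset.prod_insert hv, Finset.prod_insert hv, hcard]
      have h1 : ∑ j ∈ Finset.range (W.card + 1),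
          ((x - v) * e j x + p j * (if j ≤ W.card then 1 else 0)) * z ^ j =
          (x - v) * ∑ j ∈ Finset.range W.card, e j x * z ^ j +
          ∑ j ∈ Finset.range (W.card + 1), p j * z ^ j := by
        have h2 : ∑ j ∈ Finset.range W.card, e j x * z ^ j =
            ∑ j ∈ Finset.range (W.card + 1), e j x * z ^ j := by
          rw [Finset.sum_range_succ, he0 W.card le_rfl x]
          simp
        rw [h2, Finset.mul_sum, ← Finset.sum_add_distrib]
        refine Finset.sum_congr rfl fun j hj => ?_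
        have hj' : j ≤ W.card := by
          have := Finset.mem_range.mp hj
          omega
        simp only [hj', if_true]
        ring
      rw [h1, ← hp z]
      linear_combination (x - v) * hed x z

theorem divdiff (W : Finset ℂ) (hW : ∀ w ∈ W, ‖w‖ ≤ 2) :
    ∃ e : ℕ → ℂ → ℂ, (∀ j, Continuous (e j)) ∧
      (∀ x : ℂ, ‖x‖ ≤ 2 → ∑ j ∈ Finset.range W.card, ‖e j x‖ ≤ 8 ^ W.card) ∧
      ∀ x z : ℂ, (∑ j ∈ Finset.range W.card, e j x * z ^ j) * (x - z) =
        ∏ w ∈ W, (x - w) - ∏ w ∈ W, (z - w) := by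
  obtain ⟨p, e, _, _, _, _, hec, hen, hed⟩ := aux W hW
  exact ⟨e, hec, hen, hed⟩

end Pool.Agent.H76.CR
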