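import Mathlib

/-!
# Gap: a circle around `1` on which a product of linear factors is not small

Put `d w = ‖w - 1‖`.  For `‖z - 1‖ = q` one has `‖z - w‖ ≥ |q - d w|`, so it is enough to find
`q ∈ [κ/2, κ]` with `(κ/20)^card ≤ ∏ w ∈ S, |q - d w|`.
Average of logarithms: for every real `d` and `L = κ/2`,
`∫_{κ/2}^{κ} log |q - d| dq ≥ L (log (L/2) - 1) = L log (κ/(4e)) > L log (κ/20)`
(`integral_log` after a translation, `Real.log (-x) = Real.log x`; the function
`F x = x log x` satisfies `F (y + L) - F y ≥ L log (L/2)`: for `y ≥ 0` because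
`(y+L) log (y+L) - y log y ≥ L log (y + L)`, similarly for `y ≤ -L`, and for `-L < y < 0` by
convexity, `(y+L) log (y+L) + |y| log |y| ≥ L log (L/2)`).
If the claim were false for every `q` then `∑ log |q - d w| < card * log (κ/20)` for all `q` (when
some factor vanishes: only finitely many `q`, measure zero; Lean's `log 0 = 0` does not matter),
contradicting the integrated inequality.  (Case `card = 0` trivial.)
About 120 lines.
-/

set_option autoImplicit false

open Complex MeasureTheory

namespace Pool.Agent.H76.CR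

private lemma mul_log_ge {a m : ℝ} (ha : 0 < a) (hm : 0 < m) :
    a * Real.log m + (a - m) ≤ a * Real.log a := by
  have h1 : Real.log (m / a) ≤ m / a - 1 := Real.log_le_sub_one_of_pos (div_pos hm ha)
  rw [Real.log_div hm.ne' ha.ne'] at h1
  have h2 : a * (Real.log m - Real.log a) ≤ a * (m / a - 1) := mul_le_mul_of_nonneg_left h1 ha.le
  have h3 : a * (m / a - 1) = m - a := by field_simp
  rw [h3] at h2
  nlinarith

private lemma diff_nonneg {y L : ℝ} (hL : 0 < L) (hy : 0 ≤ y) :
    L * Real.log (L / 2) ≤ (y + L) * Real.log (y + L) - y * Real.log y := by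
  have h1 : Real.log (L / 2) ≤ Real.log (y + L) := Real.log_le_log (by linarith) (by linarith)
  have h2 : y * Real.log y ≤ y * Real.log (y + L) := by
    rcases hy.eq_or_lt with h | h
    · rw [← h]; simp
    · exact mul_le_mul_of_nonneg_left (Real.log_le_log h (by linarith)) hy
  have h3 : L * Real.log (L / 2) ≤ L * Real.log (y + L) := mul_le_mul_of_nonneg_left h1 hL.le
  nlinarith

private lemma diff_ge (y : ℝ) {L : ℝ} (hL : 0 < L) :
    L * Real.log (L / 2) ≤ (y + L) * Real.log (y + L) - y * Real.log y := by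
  rcases le_or_gt 0 y with h | h
  · exact diff_nonneg hL h
  rcases le_or_gt (y + L) 0 with h' | h'
  · have h1 := diff_nonneg (y := -(y + L)) hL (by linarith)
    have h2 : -(y + L) + L = -y := by ring
    rw [h2, Real.log_neg_eq_log, Real.log_neg_eq_log] at h1
    linarith
  · have h1 := mul_log_ge (a := y + L) (m := L / 2) h' (by linarith)
    have h2 := mul_log_ge (a := -y) (m := L / 2) (by linarith) (by linarith)
    rw [Real.log_neg_eq_log] at h2
    nlinarith

private lemma integrable_shift (d a b : ℝ) :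
    IntervalIntegrable (fun q => Real.log (q - d)) volume a b := by
  have h := (intervalIntegral.intervalIntegrable_log' (a := a - d) (b := b - d))
  have h2 := h.comp_sub_right d
  simpa using h2

private lemma integral_ge (d : ℝ) {κ : ℝ} (hκ : 0 < κ) :
    κ / 2 * (Real.log (κ / 4) - 1) ≤ ∫ q in (κ / 2)..κ, Real.log (q - d) := by
  rw [intervalIntegral.integral_comp_sub_right (fun x => Real.log x) d, integral_log]
  have h := diff_ge (κ / 2 - d) (L := κ / 2) (by linarith)
  have e1 : κ / 2 - d + κ / 2 = κ - d := by ring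
  have e2 : κ / 2 / 2 = κ / 4 := by ring
  rw [e1, e2] at h
  linarith

theorem gap (S : Finset ℂ) {κ : ℝ} (hκ : 0 < κ) :
    ∃ q : ℝ, κ / 2 ≤ q ∧ q ≤ κ ∧ ∀ z : ℂ, ‖z - 1‖ = q → (κ / 20) ^ S.card ≤ ∏ w ∈ S, ‖z - w‖ := by
  classical
  by_contra hcon
  push Not at hcon
  have hk20 : 0 < κ / 20 := by positivity
  -- pointwise bound
  have hpt : ∀ q : ℝ, κ / 2 ≤ q → q ≤ κ → ∏ w ∈ S, |q - ‖w - 1‖| < (κ / 20) ^ S.card := by
    intro q h1 h2
    obtain ⟨z, hz, hlt⟩ := hcon q h1 h2
    refine lt_of_le_of_lt ?_ hlt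
    refine Finset.prod_le_prod (fun w _ => abs_nonneg _) (fun w _ => ?_)
    have h3 := abs_norm_sub_norm_le (z - 1) (w - 1)
    have h4 : z - 1 - (w - 1) = z - w := by ring
    rw [h4, hz] at h3
    exact h3
  have hne : S.Nonempty := by
    by_contra hS
    rw [Finset.not_nonempty_iff_eq_empty] at hS
    have := hpt κ (by linarith) le_rfl
    rw [hS] at this
    simp at this
  have hcard : (0 : ℝ) < S.card := by exact_mod_cast hne.card_pos
  -- the set of bad points
  have hae : ∀ᵐ q ∂(volume.restrict (Set.Icc (κ / 2) κ)),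
      ∑ w ∈ S, Real.log (q - ‖w - 1‖) ≤ S.card * Real.log (κ / 20) := by
    have hfin : (↑(S.image (fun w => ‖w - 1‖)) : Set ℝ).Countable := (Finset.finite_toSet _).countable
    have h1 : ∀ᵐ q ∂(volume.restrict (Set.Icc (κ / 2) κ)), q ∉ (↑(S.image (fun w => ‖w - 1‖)) : Set ℝ) :=
      hfin.ae_notMem _
    have h2 : ∀ᵐ q ∂(volume.restrict (Set.Icc (κ / 2) κ)), q ∈ Set.Icc (κ / 2) κ :=
      ae_restrict_mem measurableSet_Icc
    filter_upwards [h1, h2] with q hq1 hq2
    have hnz : ∀ w ∈ S, q - ‖w - 1‖ ≠ 0 := by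
      intro w hw h0
      apply hq1
      rw [Finset.coe_image]
      exact ⟨w, hw, by linarith⟩
    have h3 := hpt q hq2.1 hq2.2
    have hpos : 0 < ∏ w ∈ S, |q - ‖w - 1‖| := Finset.prod_pos (fun w hw => abs_pos.mpr (hnz w hw))
    have h4 := Real.log_le_log hpos h3.le
    rw [Real.log_prod (fun w hw => (abs_pos.mpr (hnz w hw)).ne'), Real.log_pow] at h4
    simpa [Real.log_abs] using h4
  have hle : κ / 2 ≤ κ := by linarith
  have hint : IntervalIntegrable (fun q => ∑ w ∈ S, Real.log (q - ‖w - 1‖)) volume (κ / 2) κ := by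
    have := IntervalIntegrable.sum (μ := volume) (a := κ / 2) (b := κ) S
      (f := fun (w : ℂ) (q : ℝ) => Real.log (q - ‖w - 1‖)) (fun w _ => integrable_shift _ _ _)
    refine this.congr ?_
    intro q _
    simp [Finset.sum_apply]
  have h5 : ∫ q in (κ / 2)..κ, ∑ w ∈ S, Real.log (q - ‖w - 1‖) ≤
      ∫ _ in (κ / 2)..κ, (S.card * Real.log (κ / 20)) := by
    refine intervalIntegral.integral_mono_ae_restrict hle hint (by simp) ?_
    exact hae
  rw [intervalIntegral.integral_finsetSum (fun w _ => integrable_shift _ _ _)] at h5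
  rw [intervalIntegral.integral_const, smul_eq_mul] at h5
  have h6 : ∑ w ∈ S, (κ / 2 * (Real.log (κ / 4) - 1)) ≤
      ∑ w ∈ S, ∫ q in (κ / 2)..κ, Real.log (q - ‖w - 1‖) :=
    Finset.sum_le_sum (fun w _ => integral_ge _ hκ)
  rw [Finset.sum_const, nsmul_eq_mul] at h6
  -- log (κ/20) < log (κ/4) - 1
  have h7 : Real.log (κ / 20) < Real.log (κ / 4) - 1 := by
    have e1 : κ / 20 = (κ / 4) / 5 := by ring
    rw [e1, Real.log_div (by positivity) (by norm_num)]
    have h8 : (1 : ℝ) < Real.log 5 := by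
      rw [Real.lt_log_iff_exp_lt (by norm_num)]
      have := Real.exp_one_lt_d9
      linarith
    linarith
  have h9 : (κ - κ / 2) * (S.card * Real.log (κ / 20)) < S.card * (κ / 2 * (Real.log (κ / 4) - 1)) := by
    have h10 : (S.card : ℝ) * (κ / 2) * Real.log (κ / 20) <
        (S.card : ℝ) * (κ / 2) * (Real.log (κ / 4) - 1) :=
      mul_lt_mul_of_pos_left h7 (by positivity)
    nlinarith
  linarith

end Pool.Agent.H76.CR
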