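import Mathlib
import Pool.Agent.H76.CR.Gap
import Pool.Agent.H76.CR.DivDiff
import Pool.Agent.H76.CR.Circ

/-!
# Poly: a polynomial divisible by `z^(k0+1)` which is `1` or `0` at the given points

Let `n = W.card`, `q` from `gap` (`κ/2 ≤ q ≤ κ ≤ 1/2`), `P x = ∏ w ∈ W, (x - w)`, `e` from `divdiff`
and `c j = (2πi)⁻¹ ∮_{C(1,q)} (x^(k0+1))⁻¹ * e j x / P x`.
On the circle `1 - κ ≤ ‖x‖ ≤ 2` and `‖P x‖ ≥ (κ/20)^n > 0` (in particular no point of `W` lies on
it), so the integrands are continuous.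
Bound: `‖c j‖ ≤ q * sup`, more precisely estimate `∑_j ‖c j‖` by the integral of `∑_j ‖e j x‖`:
`∑ ‖c j‖ ≤ (1/2π) ∫_0^{2π} q (1-κ)^(-(k0+1)) (∑_j ‖e j x‖) (20/κ)^n dθ ≤
(1-κ)^(-(k0+1)) 8^n (20/κ)^n = (160/κ)^n ...` (the triangle inequality
`‖∮ f‖ ≤ q ∫_0^{2π} ‖f (circleMap 1 q θ)‖ dθ` for every `j`, then sum under the integral).
Values: for `w ∈ W`, `∑ j c j w^j = (2πi)⁻¹ ∮ (x^(k0+1))⁻¹ (∑ j e j x w^j) / P x
= (2πi)⁻¹ ∮ (x^(k0+1))⁻¹ / (x - w)` (because `(∑ j e j x w^j)(x - w) = P x - 0`), which is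
`(w^(k0+1))⁻¹` if `‖w-1‖ < q` and `0` if `‖w-1‖ > q` (`circ_in`, `circ_out`); multiply by
`w^(k0+1)` (`w ≠ 0` in the first case since `q < 1`).  For `w = 1` (inside) one gets `∑ c j = 1`.
About 130 lines.
-/

set_option autoImplicit false

open Complex

namespace Pool.Agent.H76.CR

private lemma phase_exists (z : ℂ) : ∃ s : ℂ, ‖s‖ ≤ 1 ∧ s * z = (‖z‖ : ℂ) := by
  by_cases hz : z = 0
  · exact ⟨0, by simp, by simp [hz]⟩
  · refine ⟨(‖z‖ : ℂ) / z, ?_, ?_⟩
    · rw [norm_div, Complex.norm_real, Real.norm_eq_abs, abs_norm,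
        div_self (norm_ne_zero_iff.2 hz)]
    · field_simp

theorem exists_poly {κ : ℝ} (hκ : 0 < κ) (hκ2 : κ ≤ 1 / 2) (W : Finset ℂ) (h1 : (1 : ℂ) ∈ W)
    (hW : ∀ w ∈ W, ‖w‖ ≤ 2) (k0 : ℕ) :
    ∃ c : ℕ → ℂ,
      (∑ j ∈ Finset.range W.card, ‖c j‖ ≤ (160 / κ) ^ W.card * ((1 - κ) ^ (k0 + 1))⁻¹) ∧
      (∑ j ∈ Finset.range W.card, c j = 1) ∧
      ∀ w ∈ W, (∑ j ∈ Finset.range W.card, c j * w ^ (k0 + 1 + j) = 1) ∨
        (∑ j ∈ Finset.range W.card, c j * w ^ (k0 + 1 + j) = 0) := by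
  classical
  obtain ⟨q, hq1, hq2, hgap⟩ := gap W hκ
  obtain ⟨e, he, heb, hed⟩ := divdiff W hW
  have hq0 : 0 < q := by linarith
  have hqlt : q < 1 := by linarith
  set P : ℂ → ℂ := fun x => ∏ w ∈ W, (x - w) with hP
  set n : ℕ := W.card with hn
  have hk20 : 0 < κ / 20 := by positivity
  have hPn : ∀ x : ℂ, ‖x - 1‖ = q → (κ / 20) ^ n ≤ ‖P x‖ := by
    intro x hx
    rw [hP]
    simp only
    rw [norm_prod]
    exact hgap x hx
  have hP0 : ∀ x : ℂ, ‖x - 1‖ = q → P x ≠ 0 := by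
    intro x hx h
    have := hPn x hx
    rw [h, norm_zero] at this
    have : 0 < (κ / 20) ^ n := by positivity
    linarith
  have hx1 : ∀ x : ℂ, ‖x - 1‖ = q → 1 - κ ≤ ‖x‖ ∧ ‖x‖ ≤ 2 := by
    intro x hx
    constructor
    · have h := norm_sub_norm_le (1 : ℂ) (1 - x)
      rw [norm_one, sub_sub_cancel, norm_sub_rev, hx] at h
      linarith
    · calc ‖x‖ = ‖(x - 1) + 1‖ := by ring_nf
        _ ≤ ‖x - 1‖ + ‖(1:ℂ)‖ := norm_add_le _ _
        _ ≤ 2 := by rw [hx, norm_one]; linarith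
  have hx0 : ∀ x : ℂ, ‖x - 1‖ = q → x ≠ 0 := by
    intro x hx h
    have := (hx1 x hx).1
    rw [h, norm_zero] at this
    linarith
  have hne : ∀ w ∈ W, ‖w - 1‖ ≠ q := by
    intro w hw h
    refine hP0 w h ?_
    rw [hP]
    exact Finset.prod_eq_zero hw (sub_self w)
  set F : ℕ → ℂ → ℂ := fun j x => (x ^ (k0 + 1))⁻¹ * e j x / P x with hF
  have hPc : Continuous P := by
    rw [hP]
    fun_prop
  have hFc : ∀ j, ContinuousOn (F j) (Metric.sphere (1:ℂ) q) := by
    intro j x hx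
    rw [mem_sphere_iff_norm] at hx
    apply ContinuousAt.continuousWithinAt
    exact (((continuous_pow (k0 + 1)).continuousAt.inv₀ (pow_ne_zero _ (hx0 x hx))).mul
      (he j).continuousAt).div hPc.continuousAt (hP0 x hx)
  have hFi : ∀ j, CircleIntegrable (F j) 1 q := fun j => (hFc j).circleIntegrable hq0.le
  set c : ℕ → ℂ := fun j => (2 * (Real.pi : ℂ) * I)⁻¹ * ∮ x in C(1, q), F j x with hc
  -- linear combinations
  have hlin : ∀ s : ℕ → ℂ, ∑ j ∈ Finset.range n, s j * c j =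
      (2 * (Real.pi : ℂ) * I)⁻¹ * ∮ x in C(1, q), ∑ j ∈ Finset.range n, s j * F j x := by
    intro s
    rw [circleIntegral.integral_fun_sum]
    · rw [Finset.mul_sum]
      refine Finset.sum_congr rfl fun j _ => ?_
      rw [circleIntegral.integral_const_mul, hc]
      ring
    · intro j _
      exact (hFi j).const_smul (a := s j)
  -- values at the points
  have hval : ∀ w ∈ W, ∑ j ∈ Finset.range n, c j * w ^ j =
      (2 * (Real.pi : ℂ) * I)⁻¹ * ∮ x in C(1, q), (x ^ (k0 + 1))⁻¹ / (x - w) := by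
    intro w hw
    have h2 := hlin (fun j => w ^ j)
    rw [Finset.sum_congr rfl (fun j _ => mul_comm (w ^ j) (c j))] at h2
    rw [h2]
    congr 1
    apply circleIntegral.integral_congr hq0.le
    intro x hx
    rw [mem_sphere_iff_norm] at hx
    simp only
    have hPw : P w = 0 := by
      rw [hP]
      exact Finset.prod_eq_zero hw (sub_self w)
    have hxw : x - w ≠ 0 := by
      intro h
      have : x = w := sub_eq_zero.1 h
      rw [this] at hx
      exact hne w hw hx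
    have h3 := hed x w
    change (∑ j ∈ Finset.range n, e j x * w ^ j) * (x - w) = P x - P w at h3
    rw [hPw, sub_zero] at h3
    have h4 : ∑ j ∈ Finset.range n, w ^ j * F j x =
        (x ^ (k0 + 1))⁻¹ * (∑ j ∈ Finset.range n, e j x * w ^ j) / P x := by
      rw [Finset.mul_sum, Finset.sum_div]
      refine Finset.sum_congr rfl fun j _ => ?_
      rw [hF]
      simp only
      ring
    rw [h4, ← h3]
    have h5 : ∑ j ∈ Finset.range n, e j x * w ^ j ≠ 0 := by
      intro h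
      rw [h, zero_mul] at h3
      exact hP0 x hx h3.symm
    field_simp
  refine ⟨c, ?_, ?_, ?_⟩
  · choose s hs1 hs2 using fun j => phase_exists (c j)
    have h1 : ((∑ j ∈ Finset.range n, ‖c j‖ : ℝ) : ℂ) = ∑ j ∈ Finset.range n, s j * c j := by
      push_cast
      exact Finset.sum_congr rfl fun j _ => (hs2 j).symm
    have h2 : ∑ j ∈ Finset.range n, ‖c j‖ = ‖((∑ j ∈ Finset.range n, ‖c j‖ : ℝ) : ℂ)‖ := by
      rw [Complex.norm_real, Real.norm_eq_abs, abs_of_nonneg]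
      exact Finset.sum_nonneg fun j _ => norm_nonneg _
    rw [h2, h1, hlin s, ← smul_eq_mul]
    set M : ℝ := (160 / κ) ^ n * ((1 - κ) ^ (k0 + 1))⁻¹ with hM
    have hk1 : 0 < 1 - κ := by linarith
    have hM0 : 0 ≤ M := by positivity
    refine (circleIntegral.norm_two_pi_i_inv_smul_integral_le_of_norm_le_const hq0.le
      (C := M) ?_).trans ?_
    · intro x hx
      rw [mem_sphere_iff_norm] at hx
      have hb := hx1 x hx
      have hPx := hPn x hx
      have hkn : 0 < (κ / 20) ^ n := by positivity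
      calc ‖∑ j ∈ Finset.range n, s j * F j x‖
          ≤ ∑ j ∈ Finset.range n, ((1 - κ) ^ (k0 + 1))⁻¹ * ‖e j x‖ * ((κ / 20) ^ n)⁻¹ := by
            refine norm_sum_le_of_le _ fun j _ => ?_
            rw [hF]
            simp only
            rw [norm_mul, norm_div, norm_mul, norm_inv, norm_pow]
            have e1 : (‖x‖ ^ (k0 + 1))⁻¹ ≤ ((1 - κ) ^ (k0 + 1))⁻¹ := by
              apply inv_anti₀ (by positivity)
              gcongr
              exact hb.1
            have e2 : ‖P x‖⁻¹ ≤ ((κ / 20) ^ n)⁻¹ := inv_anti₀ hkn hPx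
            calc ‖s j‖ * ((‖x‖ ^ (k0 + 1))⁻¹ * ‖e j x‖ / ‖P x‖)
                ≤ 1 * (((1 - κ) ^ (k0 + 1))⁻¹ * ‖e j x‖ * ((κ / 20) ^ n)⁻¹) := by
                  rw [div_eq_mul_inv]
                  gcongr
                  exact hs1 j
              _ = _ := one_mul _
        _ = ((1 - κ) ^ (k0 + 1))⁻¹ * (∑ j ∈ Finset.range n, ‖e j x‖) * ((κ / 20) ^ n)⁻¹ := by
            rw [Finset.mul_sum, Finset.sum_mul]
        _ ≤ ((1 - κ) ^ (k0 + 1))⁻¹ * 8 ^ n * ((κ / 20) ^ n)⁻¹ := by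
            gcongr
            exact heb x hb.2
        _ = M := by
            rw [hM, show (160 / κ : ℝ) = 8 * (κ / 20)⁻¹ by field_simp; norm_num, mul_pow, inv_pow]
            ring
    · nlinarith
  · have h2 := hval 1 h1
    rw [circ_in hq0 hqlt (by rw [sub_self, norm_zero]; exact hq0)] at h2
    simpa using h2
  · intro w hw
    have h2 := hval w hw
    have h3 : ∑ j ∈ Finset.range n, c j * w ^ (k0 + 1 + j) =
        w ^ (k0 + 1) * ∑ j ∈ Finset.range n, c j * w ^ j := by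
      rw [Finset.mul_sum]
      refine Finset.sum_congr rfl fun j _ => ?_
      rw [pow_add]
      ring
    rcases lt_or_gt_of_ne (hne w hw) with h | h
    · left
      rw [h3, h2, circ_in hq0 hqlt h]
      have hw0 : w ≠ 0 := by
        rintro rfl
        rw [zero_sub, norm_neg, norm_one] at h
        linarith
      exact mul_inv_cancel₀ (pow_ne_zero _ hw0)
    · right
      rw [h3, h2, circ_out hq0 hqlt h, mul_zero, mul_zero]

end Pool.Agent.H76.CR
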