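import Mathlib
import Pool.Agent.H76.CR.DerivL

/-!
# Tail: only `n = exp ((1+O(θ)) k0/a)` matters in `∑ dco a k n`

For `x ≥ 0`, `l > 0`: `x^k/k! ≤ l^(-k) exp (l x)` (since `(l x)^k/k! ≤ exp (l x)`,
`Real.pow_div_factorial_le_exp`).  With `x = a log n`: `dco a k n = a^(-k) (Λ(n)/n) (x^k/k!) e^(-x)`.
LOWER part, `x ≤ (1-2θ) k0`: `l = 1+2θ`, so `dco ≤ a^(-k) (Λ(n)/n) (1+2θ)^(-k) exp(2θ x)
≤ a^(-k) (Λ(n)/n) exp(-k0 (2θ - 2θ²) + 2θ(1-2θ) k0) = a^(-k) (Λ(n)/n) exp(-2θ² k0)`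
(`k ≥ k0`, `log(1+y) ≥ y - y²/2`), and `∑_{n ≤ N} Λ(n)/n ≤ C (1 + log N)`, or simply
`∑_{n ≤ N} Λ(n)/n ≤ N^(e) ∑ Λ(n) n^(-1-e)` with `e = a θ²/4`, which costs `exp(θ² k0/4)`.
UPPER part, `x ≥ (1+4θ) k0`: `l = 1-θ`, `dco ≤ a^(-k) (Λ(n)/n) (1-θ)^(-k) exp(-θ x)`,
`exp(-θ x) ≤ exp(-θ (1-θ/4) (1+4θ) k0) exp(-(θ²/4) x)`, `(1-θ)^(-k) ≤ exp((θ+θ²)(1+θ)k0)`
(`k ≤ (1+θ) k0`, `-log(1-θ) ≤ θ+θ²`), total exponent `≤ -(3/2) θ² k0`, and
`∑ Λ(n) n^(-1-aθ²/4) < ∞`.
Everything is `≤ C a^(-(k+1)) exp(-θ² k0)` with `C = C(θ, a)`.  About 130 lines.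
-/

set_option autoImplicit false

open Complex

namespace Pool.Agent.H76.CR

private theorem pow_fact_le {x l : ℝ} (hx : 0 ≤ x) (hl : 0 < l) (k : ℕ) :
    x ^ k / (k.factorial : ℝ) ≤ Real.exp (l * x - k * Real.log l) := by
  have h := Real.pow_div_factorial_le_exp (l * x) (by positivity) k
  have hlk : (0 : ℝ) < l ^ k := by positivity
  have e1 : Real.exp (l * x - k * Real.log l) = Real.exp (l * x) / l ^ k := by
    rw [Real.exp_sub]
    congr 1
    rw [mul_comm, Real.exp_mul, Real.exp_log hl, Real.rpow_natCast]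
  rw [e1, le_div_iff₀ hlk]
  calc x ^ k / (k.factorial : ℝ) * l ^ k = (l * x) ^ k / (k.factorial : ℝ) := by
        rw [mul_pow]; ring
    _ ≤ Real.exp (l * x) := h

private theorem dco_le {θ a : ℝ} (ha : 0 < a) (k0 k n : ℕ) (hn : 1 ≤ n) {l : ℝ}
    (hl : 0 < l)
    (h : l * (a * Real.log n) - k * Real.log l - a * Real.log n ≤
      -(θ ^ 2 * k0) - θ ^ 2 / 4 * (a * Real.log n)) :
    dco a k n ≤ Real.exp (-(θ ^ 2 * k0)) / a ^ k * dco (a * θ ^ 2 / 4) 0 n := by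
  have hn0 : (0 : ℝ) < n := by exact_mod_cast hn
  have hL : 0 ≤ Real.log n := Real.log_nonneg (by exact_mod_cast hn)
  have hΛ : 0 ≤ ArithmeticFunction.vonMangoldt n := ArithmeticFunction.vonMangoldt_nonneg
  have hak : (0 : ℝ) < a ^ k := by positivity
  unfold dco
  rw [Real.rpow_def_of_pos hn0, Real.rpow_def_of_pos hn0]
  simp only [pow_zero, Nat.factorial_zero, Nat.cast_one, div_one, mul_one]
  have key : Real.log n ^ k / (k.factorial : ℝ) * Real.exp (Real.log n * -(1 + a)) ≤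
      Real.exp (-(θ ^ 2 * k0)) / a ^ k * Real.exp (Real.log n * -(1 + a * θ ^ 2 / 4)) := by
    have h1 := pow_fact_le (x := a * Real.log n) (by positivity) hl k
    have h2 : Real.log n ^ k / (k.factorial : ℝ) =
        (a * Real.log n) ^ k / (k.factorial : ℝ) / a ^ k := by
      rw [mul_pow]; field_simp
    rw [h2]
    have h3 : (a * Real.log n) ^ k / (k.factorial : ℝ) / a ^ k *
        Real.exp (Real.log n * -(1 + a)) ≤
        Real.exp (l * (a * Real.log n) - k * Real.log l) / a ^ k *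
          Real.exp (Real.log n * -(1 + a)) := by
      gcongr
    refine h3.trans ?_
    have h4 : Real.exp (l * (a * Real.log n) - k * Real.log l) / a ^ k *
        Real.exp (Real.log n * -(1 + a)) =
        Real.exp (l * (a * Real.log n) - k * Real.log l + Real.log n * -(1 + a)) / a ^ k := by
      rw [Real.exp_add]; ring
    have h5 : Real.exp (-(θ ^ 2 * k0)) / a ^ k * Real.exp (Real.log n * -(1 + a * θ ^ 2 / 4)) =
        Real.exp (-(θ ^ 2 * k0) + Real.log n * -(1 + a * θ ^ 2 / 4)) / a ^ k := by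
      rw [Real.exp_add]; ring
    rw [h4, h5]
    refine div_le_div_of_nonneg_right (Real.exp_le_exp.mpr ?_) hak.le
    have e1 : Real.log n * -(1 + a) = -Real.log n - a * Real.log n := by ring
    have e2 : Real.log n * -(1 + a * θ ^ 2 / 4) = -Real.log n - θ ^ 2 / 4 * (a * Real.log n) := by
      ring
    rw [e1, e2]
    linarith
  calc ArithmeticFunction.vonMangoldt n * (Real.log n ^ k / (k.factorial : ℝ)) *
        Real.exp (Real.log n * -(1 + a))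
      = ArithmeticFunction.vonMangoldt n * (Real.log n ^ k / (k.factorial : ℝ) *
        Real.exp (Real.log n * -(1 + a))) := by ring
    _ ≤ ArithmeticFunction.vonMangoldt n * (Real.exp (-(θ ^ 2 * k0)) / a ^ k *
        Real.exp (Real.log n * -(1 + a * θ ^ 2 / 4))) := by gcongr
    _ = _ := by ring

/-- The tail bound for every `a > 0` (`N2` must be positive). -/
theorem tail_gen {θ a : ℝ} (hθ : 0 < θ) (hθ1 : θ ≤ 1 / 8) (ha : 0 < a) :
    ∃ C : ℝ, 0 < C ∧ ∀ (k0 k : ℕ) (N1 N2 : ℝ), k0 ≤ k → (k : ℝ) ≤ (1 + θ) * k0 → 0 < N1 →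
      0 < N2 → a * Real.log N1 ≤ (1 - 2 * θ) * k0 → (1 + 4 * θ) * k0 ≤ a * Real.log N2 →
      ∀ F : Finset ℕ, (∀ n : ℕ, N1 ≤ n → (n : ℝ) ≤ N2 → n ∈ F) →
      ∑' n : ℕ, (if n ∈ F then 0 else dco a k n) ≤ C * Real.exp (-(θ ^ 2 * k0)) / a ^ (k + 1) := by
  have he : 0 < a * θ ^ 2 / 4 := by positivity
  have hS := summable_dco he 0
  have hS0 : 0 ≤ ∑' n : ℕ, dco (a * θ ^ 2 / 4) 0 n := tsum_nonneg (fun n => dco_nonneg _ _ _)
  refine ⟨a * ∑' n : ℕ, dco (a * θ ^ 2 / 4) 0 n + 1, by positivity, ?_⟩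
  intro k0 k N1 N2 hk0 hk1 hN1 hN2 hlo hup F hF
  have hk0' : (k0 : ℝ) ≤ k := by exact_mod_cast hk0
  have hk0n : (0 : ℝ) ≤ k0 := Nat.cast_nonneg _
  have hak : (0 : ℝ) < a ^ k := by positivity
  have hpt : ∀ n : ℕ, (if n ∈ F then 0 else dco a k n) ≤
      Real.exp (-(θ ^ 2 * k0)) / a ^ k * dco (a * θ ^ 2 / 4) 0 n := by
    intro n
    have hnn : 0 ≤ Real.exp (-(θ ^ 2 * k0)) / a ^ k * dco (a * θ ^ 2 / 4) 0 n :=
      mul_nonneg (by positivity) (dco_nonneg _ _ _)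
    by_cases hnF : n ∈ F
    · rw [if_pos hnF]; exact hnn
    rw [if_neg hnF]
    rcases Nat.eq_zero_or_pos n with hn | hn
    · subst hn
      have : dco a k 0 = 0 := by simp [dco]
      rw [this]; exact hnn
    have hn0 : (0 : ℝ) < n := by exact_mod_cast hn
    by_cases hc : (n : ℝ) < N1
    · -- lower part
      have hx : a * Real.log n ≤ (1 - 2 * θ) * k0 := by
        refine le_trans ?_ hlo
        have := Real.log_le_log hn0 hc.le
        gcongr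
      refine dco_le ha k0 k n hn (l := 1 + 2 * θ) (by positivity) ?_
      have hlog : 2 * θ - 2 * θ ^ 2 ≤ Real.log (1 + 2 * θ) := by
        have h1 := Real.le_log_one_add_of_nonneg (x := 2 * θ) (by positivity)
        refine le_trans ?_ h1
        rw [le_div_iff₀ (by positivity)]
        nlinarith [pow_pos hθ 3]
      have h2 : (2 * θ - 2 * θ ^ 2) * k0 ≤ k * Real.log (1 + 2 * θ) := by
        have h0 : 0 ≤ 2 * θ - 2 * θ ^ 2 := by nlinarith
        calc (2 * θ - 2 * θ ^ 2) * k0 ≤ (2 * θ - 2 * θ ^ 2) * k := by gcongr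
          _ = k * (2 * θ - 2 * θ ^ 2) := by ring
          _ ≤ k * Real.log (1 + 2 * θ) := by gcongr
      have h3 : (2 * θ + θ ^ 2 / 4) * (a * Real.log n) ≤ (2 * θ + θ ^ 2 / 4) * ((1 - 2 * θ) * k0) := by
        gcongr
      have h4 : 0 ≤ θ ^ 2 * k0 := by positivity
      have h5 : 0 ≤ θ ^ 3 * k0 := by positivity
      nlinarith [h2, h3, h4, h5]
    · -- upper part
      have hc2 : N2 < n := by
        by_contra hcon
        exact hnF (hF n (not_lt.mp hc) (not_lt.mp hcon))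
      have hx : (1 + 4 * θ) * k0 ≤ a * Real.log n := by
        refine le_trans hup ?_
        have := Real.log_le_log hN2 hc2.le
        gcongr
      have hl : 0 < 1 - θ := by linarith
      refine dco_le ha k0 k n hn (l := 1 - θ) hl ?_
      have hlog : -Real.log (1 - θ) ≤ θ + 8 / 7 * θ ^ 2 := by
        have h1 := Real.one_sub_inv_le_log_of_pos hl
        have h2 : (1 - θ)⁻¹ ≤ 1 + θ + 8 / 7 * θ ^ 2 := by
          rw [inv_le_comm₀ hl (by positivity), inv_le_iff_one_le_mul₀ (by positivity)]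
          nlinarith [pow_pos hθ 2, pow_pos hθ 3]
        linarith
      have h2 : -(k * Real.log (1 - θ)) ≤ (1 + θ) * k0 * (θ + 8 / 7 * θ ^ 2) := by
        have h0 : 0 ≤ -Real.log (1 - θ) := by
          have := Real.log_nonpos hl.le (by linarith)
          linarith
        calc -(k * Real.log (1 - θ)) = k * (-Real.log (1 - θ)) := by ring
          _ ≤ (1 + θ) * k0 * (-Real.log (1 - θ)) := by gcongr
          _ ≤ (1 + θ) * k0 * (θ + 8 / 7 * θ ^ 2) := by gcongr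
      have h3 : (θ - θ ^ 2 / 4) * ((1 + 4 * θ) * k0) ≤ (θ - θ ^ 2 / 4) * (a * Real.log n) := by
        have : 0 ≤ θ - θ ^ 2 / 4 := by nlinarith
        gcongr
      have h4 : 0 ≤ θ ^ 2 * k0 := by positivity
      have h5 : θ ^ 3 * k0 ≤ 1 / 8 * (θ ^ 2 * k0) := by
        have : θ ^ 3 * k0 = θ * (θ ^ 2 * k0) := by ring
        rw [this]; gcongr
      nlinarith [h2, h3, h4, h5]
  have hsumR : Summable (fun n : ℕ => Real.exp (-(θ ^ 2 * k0)) / a ^ k *
      dco (a * θ ^ 2 / 4) 0 n) := hS.mul_left _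
  have hsumL : Summable (fun n : ℕ => if n ∈ F then 0 else dco a k n) := by
    refine Summable.of_nonneg_of_le (fun n => ?_) hpt hsumR
    split_ifs
    · exact le_rfl
    · exact dco_nonneg _ _ _
  calc ∑' n : ℕ, (if n ∈ F then 0 else dco a k n)
      ≤ ∑' n : ℕ, Real.exp (-(θ ^ 2 * k0)) / a ^ k * dco (a * θ ^ 2 / 4) 0 n :=
        hsumL.tsum_le_tsum hpt hsumR
    _ = Real.exp (-(θ ^ 2 * k0)) / a ^ k * ∑' n : ℕ, dco (a * θ ^ 2 / 4) 0 n := tsum_mul_left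
    _ = a * (∑' n : ℕ, dco (a * θ ^ 2 / 4) 0 n) * Real.exp (-(θ ^ 2 * k0)) / a ^ (k + 1) := by
        rw [pow_succ]; field_simp
        try ring
    _ ≤ (a * ∑' n : ℕ, dco (a * θ ^ 2 / 4) 0 n + 1) * Real.exp (-(θ ^ 2 * k0)) / a ^ (k + 1) := by
        gcongr
        linarith

theorem tail {θ a : ℝ} (hθ : 0 < θ) (hθ1 : θ ≤ 1 / 8) (ha : 0 < a) (_ha1 : a ≤ 1) :
    ∃ C : ℝ, 0 < C ∧ ∀ (k0 k : ℕ) (N1 N2 : ℝ), k0 ≤ k → (k : ℝ) ≤ (1 + θ) * k0 → 0 < N1 →
      0 < N2 → a * Real.log N1 ≤ (1 - 2 * θ) * k0 → (1 + 4 * θ) * k0 ≤ a * Real.log N2 →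
      ∀ F : Finset ℕ, (∀ n : ℕ, N1 ≤ n → (n : ℝ) ≤ N2 → n ∈ F) →
      ∑' n : ℕ, (if n ∈ F then 0 else dco a k n) ≤ C * Real.exp (-(θ ^ 2 * k0)) / a ^ (k + 1) :=
  tail_gen hθ hθ1 ha

end Pool.Agent.H76.CR
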