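import Mathlib
import Pool.Agent.H6.Win.MVT

/-!
# Sep: discrete mean value theorem for Dirichlet polynomials

`B t = ∑_{n ∈ S} b n n^(-it)`.  For a `C^1` function `|B(x)|² ≤ ∫_{x-1/2}^{x+1/2} (|B|² + 2|B||B'|)`
(choose `y` in the unit interval with `|B(y)|² ≤ ∫ |B|²`, then `|B(x)|² - |B(y)|² ≤ ∫ 2|B||B'|`), and
`2|B||B'| ≤ L |B|² + |B'|²/L` with `L = 1 + log M`.  The intervals `[x-1/2, x+1/2]` of the separated
points are (almost) disjoint and contained in `[T-1, T+H+1]`.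
`B' t = ∑ (-i log n) b n n^(-it)`, `‖(-i log n) b n‖ ≤ L ‖b n‖`.
`mean_value` of `H6/Win/MVT.lean` on `[-(H+1), H+1]` with the coefficients `b n n^(-iT)` and
`(-i log n) b n n^(-iT)` (norms unchanged; translate the variable by `T`):
total `≤ C (H + 1 + M) (2 L) ∑ ‖b n‖²`.  About 150 lines.
-/

set_option autoImplicit false

open Complex MeasureTheory

namespace Pool.Agent.H76.CR

private noncomputable def dp (S : Finset ℕ) (b : ℕ → ℂ) (t : ℝ) : ℂ :=
  ∑ n ∈ S, b n * (n : ℂ) ^ (-((t : ℂ) * I))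

private lemma dp_hasDeriv {S : Finset ℕ} {b : ℕ → ℂ} (hS : ∀ n ∈ S, 1 ≤ n) (t : ℝ) :
    HasDerivAt (dp S b) (dp S (fun n => -(I * (Real.log n : ℂ)) * b n) t) t := by
  unfold dp
  refine HasDerivAt.fun_sum fun n hn => ?_
  have hn0 : (n : ℂ) ≠ 0 := by
    have := hS n hn
    exact_mod_cast (by omega : n ≠ 0)
  have h1 : HasDerivAt (fun s : ℂ => -(s * I)) (-((1 : ℂ) * I)) (t : ℂ) :=
    ((hasDerivAt_id (t : ℂ)).mul_const I).neg
  have h2 := ((h1.const_cpow (c := (n : ℂ)) (Or.inl hn0)).const_mul (b n)).comp_ofReal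
  have h4 : -(I * (Real.log n : ℂ)) * b n * (n : ℂ) ^ (-((t : ℂ) * I)) =
      b n * ((n : ℂ) ^ (-((t : ℂ) * I)) * Complex.log n * -((1 : ℂ) * I)) := by
    rw [Complex.natCast_log]
    ring
  have h5 : HasDerivAt (fun t : ℝ => b n * (n : ℂ) ^ (-((t : ℂ) * I)))
      (-(I * (Real.log n : ℂ)) * b n * (n : ℂ) ^ (-((t : ℂ) * I))) t := by
    rw [h4]
    exact h2
  exact h5

private lemma dp_continuous {S : Finset ℕ} {b : ℕ → ℂ} (hS : ∀ n ∈ S, 1 ≤ n) :
    Continuous (dp S b) :=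
  continuous_iff_continuousAt.2 fun t => (dp_hasDeriv hS t).continuousAt

private lemma point_le {S : Finset ℕ} {b : ℕ → ℂ} (hS : ∀ n ∈ S, 1 ≤ n) {L : ℝ} (hL : 0 < L)
    (x : ℝ) :
    ‖dp S b x‖ ^ 2 ≤ ∫ t in (x - 1 / 2)..(x + 1 / 2), (‖dp S b t‖ ^ 2 + (L * ‖dp S b t‖ ^ 2 +
      L⁻¹ * ‖dp S (fun n => -(I * (Real.log n : ℂ)) * b n) t‖ ^ 2)) := by
  set D := dp S b with hD
  set E := dp S (fun n => -(I * (Real.log n : ℂ)) * b n) with hE
  have hDc : Continuous D := dp_continuous hS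
  have hEc : Continuous E := dp_continuous hS
  set w : ℝ → ℝ := fun t => L * ‖D t‖ ^ 2 + L⁻¹ * ‖E t‖ ^ 2 with hw
  have hwc : Continuous w := by
    simp only [hw]
    fun_prop
  have hw0 : ∀ t, 0 ≤ w t := fun t => by simp only [hw]; positivity
  have hder : ∀ t : ℝ, HasDerivAt (fun t => ‖D t‖ ^ 2) (2 * inner ℝ (D t) (E t)) t :=
    fun t => (dp_hasDeriv hS t).norm_sq
  have hdc : Continuous fun t : ℝ => 2 * inner ℝ (D t) (E t) := by
    fun_prop
  have hdle : ∀ t, ‖2 * inner ℝ (D t) (E t)‖ ≤ w t := by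
    intro t
    have h1 : |inner ℝ (D t) (E t)| ≤ ‖D t‖ * ‖E t‖ := abs_real_inner_le_norm _ _
    rw [Real.norm_eq_abs, abs_mul, abs_of_pos (by norm_num : (0 : ℝ) < 2)]
    have h2 : 2 * (‖D t‖ * ‖E t‖) ≤ w t := by
      simp only [hw]
      have h3 : 0 ≤ L⁻¹ * (L * ‖D t‖ - ‖E t‖) ^ 2 := by positivity
      have h4 : L⁻¹ * (L * ‖D t‖ - ‖E t‖) ^ 2 =
          L * ‖D t‖ ^ 2 + L⁻¹ * ‖E t‖ ^ 2 - 2 * (‖D t‖ * ‖E t‖) := by
        field_simp
        ring
      linarith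
    linarith
  -- comparison with every point of the interval
  have hcmp : ∀ y ∈ Set.Icc (x - 1 / 2) (x + 1 / 2),
      ‖D x‖ ^ 2 ≤ ‖D y‖ ^ 2 + ∫ t in (x - 1 / 2)..(x + 1 / 2), w t := by
    intro y hy
    have h1 : ∫ t in y..x, 2 * inner ℝ (D t) (E t) = ‖D x‖ ^ 2 - ‖D y‖ ^ 2 :=
      intervalIntegral.integral_eq_sub_of_hasDerivAt (fun t _ => hder t)
        (hdc.intervalIntegrable _ _)
    have h2 : ‖∫ t in y..x, 2 * inner ℝ (D t) (E t)‖ ≤ |∫ t in y..x, w t| :=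
      intervalIntegral.norm_integral_le_abs_of_norm_le
        (Filter.Eventually.of_forall hdle) (hwc.intervalIntegrable _ _)
    have h3 : |∫ t in y..x, w t| ≤ ∫ t in (x - 1 / 2)..(x + 1 / 2), w t := by
      rcases le_total y x with hyx | hyx
      · rw [abs_of_nonneg (intervalIntegral.integral_nonneg hyx fun t _ => hw0 t)]
        exact intervalIntegral.integral_mono_interval hy.1 hyx (by linarith)
          (Filter.Eventually.of_forall hw0) (hwc.intervalIntegrable _ _)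
      · rw [intervalIntegral.integral_symm, abs_neg,
          abs_of_nonneg (intervalIntegral.integral_nonneg hyx fun t _ => hw0 t)]
        exact intervalIntegral.integral_mono_interval (by linarith) hyx hy.2
          (Filter.Eventually.of_forall hw0) (hwc.intervalIntegrable _ _)
    rw [h1, Real.norm_eq_abs] at h2
    have h4 := le_abs_self (‖D x‖ ^ 2 - ‖D y‖ ^ 2)
    linarith
  have hA : ∫ y in (x - 1 / 2)..(x + 1 / 2), ‖D x‖ ^ 2 ≤
      ∫ y in (x - 1 / 2)..(x + 1 / 2), (‖D y‖ ^ 2 + ∫ t in (x - 1 / 2)..(x + 1 / 2), w t) := by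
    refine intervalIntegral.integral_mono_on (by linarith) ?_ ?_ hcmp
    · exact continuous_const.intervalIntegrable _ _
    · exact (by fun_prop : Continuous fun y : ℝ => ‖D y‖ ^ 2 +
        ∫ t in (x - 1 / 2)..(x + 1 / 2), w t).intervalIntegrable _ _
  have hB : ∫ y in (x - 1 / 2)..(x + 1 / 2), ‖D x‖ ^ 2 = ‖D x‖ ^ 2 := by
    rw [intervalIntegral.integral_const, smul_eq_mul]
    ring
  have hC : ∫ y in (x - 1 / 2)..(x + 1 / 2), (‖D y‖ ^ 2 + ∫ t in (x - 1 / 2)..(x + 1 / 2), w t) =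
      (∫ y in (x - 1 / 2)..(x + 1 / 2), ‖D y‖ ^ 2) + ∫ t in (x - 1 / 2)..(x + 1 / 2), w t := by
    rw [intervalIntegral.integral_add]
    · rw [intervalIntegral.integral_const, smul_eq_mul]
      ring
    · exact (by fun_prop : Continuous fun y : ℝ => ‖D y‖ ^ 2).intervalIntegrable _ _
    · exact continuous_const.intervalIntegrable _ _
  have hE' : ∫ t in (x - 1 / 2)..(x + 1 / 2), (‖D t‖ ^ 2 + w t) =
      (∫ y in (x - 1 / 2)..(x + 1 / 2), ‖D y‖ ^ 2) + ∫ t in (x - 1 / 2)..(x + 1 / 2), w t := by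
    rw [intervalIntegral.integral_add]
    · exact (by fun_prop : Continuous fun y : ℝ => ‖D y‖ ^ 2).intervalIntegrable _ _
    · exact hwc.intervalIntegrable _ _
  rw [hB, hC] at hA
  rw [← hE'] at hA
  exact hA

private lemma dp_translate {S : Finset ℕ} {b : ℕ → ℂ} (hS : ∀ n ∈ S, 1 ≤ n) (T t : ℝ) :
    dp S b (t + T) = dp S (fun n => b n * (n : ℂ) ^ (-((T : ℂ) * I))) t := by
  unfold dp
  refine Finset.sum_congr rfl fun n hn => ?_
  have hn0 : (n : ℂ) ≠ 0 := by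
    have := hS n hn
    exact_mod_cast (by omega : n ≠ 0)
  rw [mul_assoc, ← Complex.cpow_add _ _ hn0]
  congr 2
  push_cast
  ring

private lemma norm_coeff {n : ℕ} (hn : 1 ≤ n) (c : ℂ) (T : ℝ) :
    ‖c * (n : ℂ) ^ (-((T : ℂ) * I))‖ = ‖c‖ := by
  rw [norm_mul, Complex.norm_natCast_cpow_of_pos (by omega)]
  simp

/-- the mean value theorem on the translated interval -/
private lemma mv_translate {C : ℝ} (hC0 : 0 < C)
    (hC : ∀ (T : ℝ) (S : Finset ℕ) (a : ℕ → ℂ), 1 ≤ T → (∀ n ∈ S, 1 ≤ n) →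
      ∫ t in (-T)..T, ‖∑ n ∈ S, a n * (n : ℂ) ^ (-(t * I))‖ ^ 2 ≤
        C * ∑ n ∈ S, (T + n) * ‖a n‖ ^ 2)
    {T H : ℝ} {M : ℕ} {S : Finset ℕ} {b : ℕ → ℂ} (hH : 1 ≤ H)
    (hS : ∀ n ∈ S, 1 ≤ n ∧ n ≤ M) {K : ℝ} {a : ℕ → ℂ}
    (hab : ∀ n ∈ S, ‖a n‖ ^ 2 ≤ K * ‖b n‖ ^ 2) :
    ∫ t in (T - 1)..(T + H + 1), ‖dp S a t‖ ^ 2 ≤
      C * (H + 1 + M) * (K * ∑ n ∈ S, ‖b n‖ ^ 2) := by
  have hS1 : ∀ n ∈ S, 1 ≤ n := fun n hn => (hS n hn).1
  have hc : Continuous fun t : ℝ => ‖dp S a t‖ ^ 2 := by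
    have := dp_continuous (b := a) hS1
    fun_prop
  have h1 : ∫ t in (T - 1)..(T + H + 1), ‖dp S a t‖ ^ 2 ≤
      ∫ t in (-(H + 1) + T)..((H + 1) + T), ‖dp S a t‖ ^ 2 :=
    intervalIntegral.integral_mono_interval (by linarith) (by linarith) (by linarith)
      (Filter.Eventually.of_forall fun t => by positivity) (hc.intervalIntegrable _ _)
  have h2 : ∫ t in (-(H + 1) + T)..((H + 1) + T), ‖dp S a t‖ ^ 2 =
      ∫ t in (-(H + 1))..(H + 1), ‖dp S a (t + T)‖ ^ 2 := by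
    rw [← intervalIntegral.integral_comp_add_right (fun t => ‖dp S a t‖ ^ 2)]
  have h3 := hC (H + 1) S (fun n => a n * (n : ℂ) ^ (-((T : ℂ) * I))) (by linarith) hS1
  have h4 : (∫ t in (-(H + 1))..(H + 1), ‖dp S a (t + T)‖ ^ 2) =
      ∫ t in (-(H + 1))..(H + 1),
        ‖∑ n ∈ S, a n * (n : ℂ) ^ (-((T : ℂ) * I)) * (n : ℂ) ^ (-(t * I))‖ ^ 2 := by
    congr 1
    funext t
    rw [dp_translate hS1]
    rfl
  have h5 : ∑ n ∈ S, (H + 1 + n) * ‖a n * (n : ℂ) ^ (-((T : ℂ) * I))‖ ^ 2 ≤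
      (H + 1 + M) * (K * ∑ n ∈ S, ‖b n‖ ^ 2) := by
    rw [Finset.mul_sum, Finset.mul_sum]
    refine Finset.sum_le_sum fun n hn => ?_
    rw [norm_coeff (hS1 n hn)]
    have h6 : ((n : ℝ)) ≤ M := by exact_mod_cast (hS n hn).2
    have h7 : (0 : ℝ) ≤ n := Nat.cast_nonneg n
    exact mul_le_mul (by linarith) (hab n hn) (by positivity) (by linarith)
  calc ∫ t in (T - 1)..(T + H + 1), ‖dp S a t‖ ^ 2 ≤ _ := h1
    _ = _ := h2
    _ = _ := h4
    _ ≤ _ := h3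
    _ ≤ C * ((H + 1 + M) * (K * ∑ n ∈ S, ‖b n‖ ^ 2)) := by gcongr
    _ = _ := by ring

theorem sep_mean : ∃ C : ℝ, 0 < C ∧ ∀ (T H : ℝ) (M : ℕ) (S : Finset ℕ) (b : ℕ → ℂ) (X : Finset ℝ),
    1 ≤ H → 1 ≤ M → (∀ n ∈ S, 1 ≤ n ∧ n ≤ M) → (∀ x ∈ X, T ≤ x ∧ x ≤ T + H) →
    (∀ x ∈ X, ∀ y ∈ X, x ≠ y → 1 ≤ |x - y|) →
    ∑ x ∈ X, ‖∑ n ∈ S, b n * (n : ℂ) ^ (-(x * I))‖ ^ 2 ≤
      C * (H + M) * (1 + Real.log M) * ∑ n ∈ S, ‖b n‖ ^ 2 := by
  obtain ⟨C, hC0, hC⟩ := Pool.Agent.H6.Win.mean_value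
  refine ⟨6 * C, by positivity, fun T H M S b X hH hM hS hX hsep => ?_⟩
  have hS1 : ∀ n ∈ S, 1 ≤ n := fun n hn => (hS n hn).1
  set L : ℝ := 1 + Real.log M with hL
  have hM1 : (1 : ℝ) ≤ M := by exact_mod_cast hM
  have hL1 : 1 ≤ L := by
    have := Real.log_nonneg hM1
    linarith
  have hL0 : 0 < L := by linarith
  set a : ℕ → ℂ := fun n => -(I * (Real.log n : ℂ)) * b n with ha
  set w : ℝ → ℝ := fun t => ‖dp S b t‖ ^ 2 + (L * ‖dp S b t‖ ^ 2 + L⁻¹ * ‖dp S a t‖ ^ 2) with hw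
  have hbc : Continuous (dp S b) := dp_continuous hS1
  have hac : Continuous (dp S a) := dp_continuous hS1
  have hwc : Continuous w := by
    simp only [hw]
    fun_prop
  have hw0 : ∀ t, 0 ≤ w t := fun t => by simp only [hw]; positivity
  have hsum : ∑ x ∈ X, ‖∑ n ∈ S, b n * (n : ℂ) ^ (-(x * I))‖ ^ 2 ≤
      ∫ t in (T - 1)..(T + H + 1), w t := by
    have h1 : ∑ x ∈ X, ‖∑ n ∈ S, b n * (n : ℂ) ^ (-(x * I))‖ ^ 2 ≤
        ∑ x ∈ X, ∫ t in Set.Ioc (x - 1 / 2) (x + 1 / 2), w t := by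
      refine Finset.sum_le_sum fun x _ => ?_
      rw [← intervalIntegral.integral_of_le (by linarith)]
      exact point_le hS1 hL0 x
    have h2 : ∑ x ∈ X, ∫ t in Set.Ioc (x - 1 / 2) (x + 1 / 2), w t =
        ∫ t in ⋃ x ∈ X, Set.Ioc (x - 1 / 2) (x + 1 / 2), w t := by
      rw [MeasureTheory.integral_biUnion_finset X (fun x _ => measurableSet_Ioc)]
      · intro x hx y hy hxy
        have h3 := hsep x hx y hy hxy
        simp only [Function.onFun]
        rw [Set.disjoint_left]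
        intro t ht1 ht2
        rcases le_or_gt x y with h4 | h4
        · rw [abs_of_nonpos (by linarith)] at h3
          linarith [ht1.2, ht2.1]
        · rw [abs_of_pos (by linarith)] at h3
          linarith [ht1.1, ht2.2]
      · intro x _
        exact (hwc.integrableOn_Icc (a := x - 1 / 2) (b := x + 1 / 2)).mono_set
          Set.Ioc_subset_Icc_self
    have h3 : ∫ t in ⋃ x ∈ X, Set.Ioc (x - 1 / 2) (x + 1 / 2), w t ≤
        ∫ t in Set.Ioc (T - 1) (T + H + 1), w t := by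
      refine setIntegral_mono_set ?_ ?_ ?_
      · exact (hwc.integrableOn_Icc (a := T - 1) (b := T + H + 1)).mono_set
          Set.Ioc_subset_Icc_self
      · exact Filter.Eventually.of_forall fun t => hw0 t
      · refine LE.le.eventuallyLE ?_
        intro t ht
        simp only [Set.mem_iUnion, Set.mem_Ioc] at ht
        obtain ⟨x, hx, h4, h5⟩ := ht
        have := hX x hx
        constructor <;> linarith
    rw [intervalIntegral.integral_of_le (by linarith)]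
    linarith
  have hb := mv_translate hC0 hC (T := T) (H := H) (M := M) (S := S) (b := b) (K := 1) (a := b)
    hH hS (fun n _ => by rw [one_mul])
  have hd := mv_translate hC0 hC (T := T) (H := H) (M := M) (S := S) (b := b) (K := L ^ 2) (a := a)
    hH hS (fun n hn => by
      have h1 : ‖a n‖ = Real.log n * ‖b n‖ := by
        simp only [ha]
        rw [norm_mul, norm_neg, norm_mul, Complex.norm_I, one_mul, Complex.norm_real,
          Real.norm_eq_abs, abs_of_nonneg (Real.log_natCast_nonneg n)]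
      rw [h1, mul_pow]
      have h2 : Real.log n ≤ L := by
        have h3 : Real.log n ≤ Real.log M :=
          Real.log_le_log (by exact_mod_cast (hS1 n hn)) (by exact_mod_cast (hS n hn).2)
        linarith
      have h4 := Real.log_natCast_nonneg n
      gcongr)
  have hsplit : ∫ t in (T - 1)..(T + H + 1), w t =
      (∫ t in (T - 1)..(T + H + 1), ‖dp S b t‖ ^ 2) +
        (L * (∫ t in (T - 1)..(T + H + 1), ‖dp S b t‖ ^ 2) +
          L⁻¹ * ∫ t in (T - 1)..(T + H + 1), ‖dp S a t‖ ^ 2) := by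
    simp only [hw]
    rw [intervalIntegral.integral_add, intervalIntegral.integral_add,
      intervalIntegral.integral_const_mul, intervalIntegral.integral_const_mul]
    all_goals exact Continuous.intervalIntegrable (by fun_prop) _ _
  set Q : ℝ := ∑ n ∈ S, ‖b n‖ ^ 2 with hQ
  have hQ0 : 0 ≤ Q := Finset.sum_nonneg fun n _ => by positivity
  set P : ℝ := C * (H + 1 + M) * Q with hP
  have hP0 : 0 ≤ P := by positivity
  have hb' : ∫ t in (T - 1)..(T + H + 1), ‖dp S b t‖ ^ 2 ≤ P := by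
    rw [one_mul] at hb; exact hb
  have hd' : L⁻¹ * ∫ t in (T - 1)..(T + H + 1), ‖dp S a t‖ ^ 2 ≤ L * P := by
    have h1 : L⁻¹ * ∫ t in (T - 1)..(T + H + 1), ‖dp S a t‖ ^ 2 ≤
        L⁻¹ * (C * (H + 1 + M) * (L ^ 2 * Q)) := by gcongr
    have h2 : L⁻¹ * (C * (H + 1 + M) * (L ^ 2 * Q)) = L * P := by
      rw [hP]; field_simp
    linarith
  have hfin : ∫ t in (T - 1)..(T + H + 1), w t ≤ 3 * L * P := by
    rw [hsplit]
    have h1 : L * (∫ t in (T - 1)..(T + H + 1), ‖dp S b t‖ ^ 2) ≤ L * P := by gcongr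
    nlinarith
  have hlast : 3 * L * P ≤ 6 * C * (H + M) * L * Q := by
    have h1 : P ≤ 2 * (C * (H + M) * Q) := by
      rw [hP]
      have h2 : H + 1 + (M : ℝ) ≤ 2 * (H + M) := by linarith
      have h3 : C * (H + 1 + M) * Q ≤ C * (2 * (H + M)) * Q := by gcongr
      linarith
    have h4 : 3 * L * P ≤ 3 * L * (2 * (C * (H + M) * Q)) := by gcongr
    linarith
  linarith

end Pool.Agent.H76.CR
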