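import Mathlib
import Pool.Agent.H76.CR.Poly
import Pool.Agent.H76.CR.DkLocal
import Pool.Agent.H76.CR.ZFacts

/-!
# Detect: a zero with few distinct neighbours makes some `Dk` large

Let `ρ = β + iγ`, `s0 = pt a γ`, `R = a + 1 - β`, so `a < R ≤ (1+κ) a ≤ 1/8` and `s0 - ρ = R`.
`S` from `Dk_local` (with this `R`).  For `u ∈ S`: `‖u - ρ‖ ≤ ‖s0-u‖ + ‖s0-ρ‖ < 3R ≤ 4a`, `u ≠ 1`
(because `|γ| ≥ 1` and `4a ≤ 1/4`), so `S.card ≤ nearZeros (4a) ρ` (`card_le_near`).
`w u = R/(s0-u)`, injective on `S`, `W = S.image w`, `W.card = S.card = n ≤ κ k0/log(160/κ)`;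
`w ρ = 1`; `‖w u‖ ≤ R/a ≤ 1+κ ≤ 2` (`re (s0-u) ≥ a` since `re u < 1`).  `c` from `exists_poly`:
`∑_j c_j R^(k0+1+j) D_{k0+j}(γ) = - ∑_{u∈S} zord u (∑_j c_j (w u)^(k0+1+j)) + E`.
The double sum is a sum of `zord u` over a subset of `S` containing `ρ`, hence a real number `≥ 1`.
`‖E‖ ≤ (∑‖c_j‖) C0 log(|γ|+2) 2^(-(k0+1))`, `∑‖c_j‖ ≤ (160/κ)^n (1-κ)^(-(k0+1)) ≤
exp(κ k0 + 2κ (k0+1))` (`-log(1-κ) ≤ 2κ`), so `‖E‖ ≤ 1/2` if `k0 ≥ C loglog + C`
(`log 2 - 3κ ≥ 3/10`).  Hence some `j < n` has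
`R^(k0+1+j) ‖D_{k0+j}(γ)‖ ≥ (1/2) exp(-3κ k0 - 2κ)`, and `R^(k+1) ≤ a^(k+1) exp(κ (k+1))`,
`k = k0+j ≤ (1+κ) k0`.  Total: `a^(k+1) ‖Dk‖ ≥ (1/2) exp(-3κk0 - 2κ - κ(1+κ)k0 - κ) ≥ exp(-5κ k0)`
for `k0 ≥ C`.  About 170 lines.
-/

set_option autoImplicit false

open Complex

namespace Pool.Agent.H76.CR

open Pool.Agent.H6 Pool.Agent.H6.Win

private lemma exp_neg_two_le {κ : ℝ} (hκ : 0 < κ) (hκ2 : κ ≤ 1 / 8) :
    Real.exp (-(2 * κ)) ≤ 1 - κ := by
  have h1 : 1 + 2 * κ ≤ Real.exp (2 * κ) := by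
    have := Real.add_one_le_exp (2 * κ)
    linarith
  rw [Real.exp_neg]
  rw [inv_le_comm₀ (Real.exp_pos _) (by linarith)]
  refine le_trans ?_ h1
  rw [inv_le_iff_one_le_mul₀ (by linarith)]
  nlinarith

theorem detect {κ : ℝ} (hκ : 0 < κ) (hκ2 : κ ≤ 1 / 8) : ∃ C : ℝ, 0 < C ∧
    ∀ (a : ℝ) (ρ : ℂ) (k0 : ℕ), 0 < a → a ≤ 1 / 16 → riemannZeta ρ = 0 → 1 - κ * a ≤ ρ.re →
      1 ≤ |ρ.im| → C * Real.log (Real.log (|ρ.im| + 2)) + C ≤ k0 →
      (nearZeros (4 * a) ρ : ℝ) ≤ κ / Real.log (160 / κ) * k0 →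
      ∃ k : ℕ, k0 ≤ k ∧ (k : ℝ) ≤ (1 + κ) * k0 ∧
        Real.exp (-(5 * κ * k0)) ≤ a ^ (k + 1) * ‖Dk a k ρ.im‖ := by
  classical
  obtain ⟨C0, hC0, hD⟩ := Dk_local
  have hκ1 : 0 < 1 - κ := by linarith
  have hK0 : 0 ≤ (3 * κ + 1) / (κ * (1 - κ)) := by positivity
  refine ⟨4 + 4 * |Real.log (2 * C0)| + (3 * κ + 1) / (κ * (1 - κ)), by positivity, ?_⟩
  intro a ρ k0 ha ha1 hζ hre him hk0 hnear
  set C : ℝ := 4 + 4 * |Real.log (2 * C0)| + (3 * κ + 1) / (κ * (1 - κ)) with hC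
  set γ : ℝ := ρ.im with hγ
  set s0 : ℂ := pt a γ with hs0
  set R : ℝ := a + 1 - ρ.re with hR
  set L : ℝ := Real.log (|γ| + 2) with hL
  have hβ : ρ.re < 1 := re_lt_one hζ
  have haR : a < R := by rw [hR]; linarith
  have hR0 : 0 < R := ha.trans haR
  have hRa : R ≤ (1 + κ) * a := by rw [hR]; nlinarith
  have hR8 : R ≤ 1 / 8 := by nlinarith
  have hs0re : s0.re = 1 + a := by simp [hs0, pt]
  have hs0im : s0.im = γ := by simp [hs0, pt]
  have hsub : s0 - ρ = (R : ℂ) := by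
    apply Complex.ext
    · rw [sub_re, hs0re, ofReal_re, hR]; ring
    · rw [sub_im, hs0im, ofReal_im, hγ]; ring
  have hL1 : 1 < L := by
    rw [hL, Real.lt_log_iff_exp_lt (by positivity)]
    have := Real.exp_one_lt_d9
    linarith
  have hLL : 0 < Real.log L := Real.log_pos hL1
  obtain ⟨S, hS, hSord, hSD⟩ := hD a R γ ha ha1 hR0 hR8 him
  have hne1 : ∀ u ∈ S, u ≠ 1 := by
    intro u hu h
    have h1 := ((hS u).1 hu).1
    have h2 : |(s0 - u).im| ≤ ‖s0 - u‖ := abs_im_le_norm _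
    rw [sub_im, hs0im, h, one_im, sub_zero] at h2
    rw [h] at h1
    linarith
  have hSz : ∀ u ∈ S, riemannZeta u = 0 := fun u hu =>
    (zetaPole_eq_zero_iff (hne1 u hu)).1 ((hS u).1 hu).2
  have hSn : ∀ u ∈ S, ‖u - ρ‖ ≤ 4 * a := by
    intro u hu
    have h1 := ((hS u).1 hu).1
    calc ‖u - ρ‖ = ‖(s0 - ρ) - (s0 - u)‖ := by congr 1; ring
      _ ≤ ‖s0 - ρ‖ + ‖s0 - u‖ := norm_sub_le _ _
      _ ≤ R + 2 * R := by
        rw [hsub, Complex.norm_real, Real.norm_eq_abs, abs_of_pos hR0]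
        linarith
      _ ≤ 4 * a := by nlinarith
  have hcard : S.card ≤ nearZeros (4 * a) ρ :=
    card_le_near (by rw [← hγ]; linarith) S fun u hu => ⟨hSz u hu, hSn u hu⟩
  have hρS : ρ ∈ S := by
    rw [hS]
    refine ⟨?_, ?_⟩
    · rw [hsub, Complex.norm_real, Real.norm_eq_abs, abs_of_pos hR0]
      linarith
    · refine (zetaPole_eq_zero_iff ?_).2 hζ
      rintro rfl
      rw [one_re] at hβ
      exact lt_irrefl _ hβ
  have hrea : ∀ u ∈ S, a < (s0 - u).re := by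
    intro u hu
    have := re_lt_one (hSz u hu)
    rw [sub_re, hs0re]
    linarith
  have hnu : ∀ u ∈ S, a < ‖s0 - u‖ := fun u hu => (hrea u hu).trans_le (re_le_norm _)
  have hu0 : ∀ u ∈ S, s0 - u ≠ 0 := by
    intro u hu h
    have := hnu u hu
    rw [h, norm_zero] at this
    linarith
  -- the points
  set w : ℂ → ℂ := fun u => (R : ℂ) / (s0 - u) with hw
  have hRc : (R : ℂ) ≠ 0 := by exact_mod_cast hR0.ne'
  have hinj : Set.InjOn w S := by
    intro u hu v hv huv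
    rw [hw] at huv
    simp only at huv
    have h1 := hu0 u hu
    have h2 := hu0 v hv
    rw [div_eq_div_iff h1 h2] at huv
    have h3 := mul_left_cancel₀ hRc huv
    have h4 : s0 - v = s0 - u := h3
    exact (sub_right_inj.1 h4).symm
  set W : Finset ℂ := S.image w with hW
  have hWc : W.card = S.card := Finset.card_image_of_injOn hinj
  have hwρ : w ρ = 1 := by
    rw [hw]
    simp only
    rw [hsub, div_self hRc]
  have h1W : (1 : ℂ) ∈ W := by
    rw [hW, Finset.mem_image]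
    exact ⟨ρ, hρS, hwρ⟩
  have hW2 : ∀ z ∈ W, ‖z‖ ≤ 2 := by
    intro z hz
    rw [hW, Finset.mem_image] at hz
    obtain ⟨u, hu, rfl⟩ := hz
    rw [hw]
    simp only
    rw [norm_div, Complex.norm_real, Real.norm_eq_abs, abs_of_pos hR0,
      div_le_iff₀ (ha.trans (hnu u hu))]
    have := hnu u hu
    nlinarith
  obtain ⟨c, hc1, hc2, hc3⟩ := exists_poly hκ (by linarith) W h1W hW2 k0
  set n : ℕ := W.card with hn
  set Sc : ℝ := ∑ j ∈ Finset.range n, ‖c j‖ with hSc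
  -- numerical bounds
  have hlog160 : 1 < Real.log (160 / κ) := by
    rw [Real.lt_log_iff_exp_lt (by positivity)]
    have := Real.exp_one_lt_d9
    refine this.trans ?_
    rw [lt_div_iff₀ hκ]
    nlinarith
  have hnk : (n : ℝ) * Real.log (160 / κ) ≤ κ * k0 := by
    have h1 : (n : ℝ) ≤ κ / Real.log (160 / κ) * k0 := by
      refine le_trans ?_ hnear
      rw [hWc]
      exact_mod_cast hcard
    calc (n : ℝ) * Real.log (160 / κ) ≤ κ / Real.log (160 / κ) * k0 * Real.log (160 / κ) := by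
          gcongr
      _ = κ * k0 := by
          field_simp
  have hnk' : (n : ℝ) ≤ κ * k0 := by
    refine le_trans ?_ hnk
    have : (0:ℝ) ≤ n := Nat.cast_nonneg n
    nlinarith
  have hk0C : C ≤ k0 := by
    refine le_trans ?_ hk0
    have : 0 ≤ C * Real.log L := by positivity
    linarith
  have hScb : Sc ≤ Real.exp (κ * k0 + 2 * κ * (k0 + 1)) := by
    refine hc1.trans ?_
    rw [Real.exp_add]
    gcongr
    · rw [← Real.rpow_natCast, Real.rpow_def_of_pos (by positivity)]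
      apply Real.exp_le_exp.2
      linarith
    · rw [inv_le_comm₀ (by positivity) (Real.exp_pos _), ← Real.exp_neg]
      calc Real.exp (-(2 * κ * (k0 + 1))) = Real.exp (-(2 * κ)) ^ (k0 + 1) := by
            rw [← Real.exp_nat_mul]
            congr 1
            push_cast
            ring
        _ ≤ (1 - κ) ^ (k0 + 1) := by
            gcongr
            exact exp_neg_two_le hκ hκ2
  have hSc0 : 0 ≤ Sc := by rw [hSc]; positivity
  -- the main identity
  set M : ℂ := ∑ u ∈ S, (zord u : ℂ) * ∑ j ∈ Finset.range n, c j * w u ^ (k0 + 1 + j) with hM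
  have hM1 : 1 ≤ ‖M‖ := by
    refine le_trans ?_ (re_le_norm M)
    rw [hM, re_sum]
    have hterm : ∀ u ∈ S, 0 ≤ ((zord u : ℂ) *
        ∑ j ∈ Finset.range n, c j * w u ^ (k0 + 1 + j)).re := by
      intro u hu
      rcases hc3 (w u) (Finset.mem_image_of_mem w hu) with h | h
      · rw [h, mul_one, natCast_re]
        positivity
      · rw [h, mul_zero, zero_re]
    have hρt : 1 ≤ ((zord ρ : ℂ) * ∑ j ∈ Finset.range n, c j * w ρ ^ (k0 + 1 + j)).re := by
      have h2 : ∑ j ∈ Finset.range n, c j * w ρ ^ (k0 + 1 + j) = 1 := by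
        rw [hwρ]
        simpa using hc2
      rw [h2, mul_one, natCast_re]
      exact_mod_cast hSord ρ hρS
    exact hρt.trans (Finset.single_le_sum hterm hρS)
  have hid : ∑ j ∈ Finset.range n, c j * (R : ℂ) ^ (k0 + j + 1) *
      (Dk a (k0 + j) γ + ∑ u ∈ S, (zord u : ℂ) / (s0 - u) ^ (k0 + j + 1)) =
      (∑ j ∈ Finset.range n, c j * (R : ℂ) ^ (k0 + j + 1) * Dk a (k0 + j) γ) + M := by
    rw [hM]
    simp_rw [mul_add, Finset.mul_sum]
    rw [Finset.sum_add_distrib]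
    congr 1
    rw [Finset.sum_comm]
    refine Finset.sum_congr rfl fun u hu => Finset.sum_congr rfl fun j _ => ?_
    rw [hw]
    simp only
    rw [div_pow, show k0 + 1 + j = k0 + j + 1 by ring]
    ring
  have hE : ‖∑ j ∈ Finset.range n, c j * (R : ℂ) ^ (k0 + j + 1) *
      (Dk a (k0 + j) γ + ∑ u ∈ S, (zord u : ℂ) / (s0 - u) ^ (k0 + j + 1))‖ ≤ 1 / 2 := by
    have h1 : ‖∑ j ∈ Finset.range n, c j * (R : ℂ) ^ (k0 + j + 1) *
        (Dk a (k0 + j) γ + ∑ u ∈ S, (zord u : ℂ) / (s0 - u) ^ (k0 + j + 1))‖ ≤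
        ∑ j ∈ Finset.range n, ‖c j‖ * (C0 * L * (2 ^ (k0 + 1))⁻¹) := by
      refine norm_sum_le_of_le _ fun j _ => ?_
      rw [norm_mul, norm_mul, norm_pow, Complex.norm_real, Real.norm_eq_abs, abs_of_pos hR0,
        mul_assoc]
      refine mul_le_mul_of_nonneg_left ?_ (norm_nonneg _)
      calc R ^ (k0 + j + 1) * ‖Dk a (k0 + j) γ + ∑ u ∈ S, (zord u : ℂ) / (s0 - u) ^ (k0 + j + 1)‖
          ≤ R ^ (k0 + j + 1) * (C0 * L / (2 * R) ^ (k0 + j + 1)) := by
            gcongr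
            exact hSD (k0 + j)
        _ = C0 * L * (2 ^ (k0 + j + 1))⁻¹ := by
            rw [mul_pow]
            field_simp
        _ ≤ C0 * L * (2 ^ (k0 + 1))⁻¹ := by
            gcongr
            · norm_num
            · omega
    refine h1.trans ?_
    rw [← Finset.sum_mul, ← hSc]
    have h2 : Sc * (C0 * L * (2 ^ (k0 + 1))⁻¹) ≤
        Real.exp (κ * k0 + 2 * κ * (k0 + 1)) * (C0 * L * Real.exp (-(Real.log 2 * (k0 + 1)))) := by
      have e : ((2:ℝ) ^ (k0 + 1))⁻¹ = Real.exp (-(Real.log 2 * (k0 + 1))) := by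
        rw [Real.exp_neg, ← Real.rpow_natCast, Real.rpow_def_of_pos two_pos]
        push_cast
        rfl
      rw [e]
      gcongr
    refine h2.trans ?_
    have e3 : Real.exp (κ * k0 + 2 * κ * (k0 + 1)) *
        (C0 * L * Real.exp (-(Real.log 2 * (k0 + 1)))) =
        Real.exp (κ * k0 + 2 * κ * (k0 + 1) - Real.log 2 * (k0 + 1) + Real.log (C0 * L)) := by
      rw [show κ * k0 + 2 * κ * (k0 + 1) - Real.log 2 * (k0 + 1) + Real.log (C0 * L) =
        (κ * k0 + 2 * κ * (k0 + 1)) + -(Real.log 2 * (k0 + 1)) + Real.log (C0 * L) by ring,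
        Real.exp_add _ (Real.log (C0 * L)), Real.exp_add (κ * k0 + 2 * κ * (k0 + 1)),
        Real.exp_log (by positivity)]
      ring
    rw [e3, show (1 / 2 : ℝ) = Real.exp (-Real.log 2) by
      rw [Real.exp_neg, Real.exp_log two_pos]; norm_num]
    apply Real.exp_le_exp.2
    have hlog2 := Real.log_two_gt_d9
    have h5 : Real.log (C0 * L) + Real.log 2 = Real.log (2 * C0) + Real.log L := by
      rw [Real.log_mul hC0.ne' (by linarith), Real.log_mul two_ne_zero hC0.ne']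
      ring
    have h6 : Real.log (2 * C0) ≤ |Real.log (2 * C0)| := le_abs_self _
    have h7 : 4 * Real.log L + 4 * |Real.log (2 * C0)| ≤ k0 := by
      refine le_trans ?_ hk0
      rw [hC]
      have h8 := mul_nonneg hK0 hLL.le
      have h9 := mul_nonneg (abs_nonneg (Real.log (2 * C0))) hLL.le
      have h10 : (4 + 4 * |Real.log (2 * C0)| + (3 * κ + 1) / (κ * (1 - κ))) * Real.log L =
        4 * Real.log L + 4 * (|Real.log (2 * C0)| * Real.log L) +
          (3 * κ + 1) / (κ * (1 - κ)) * Real.log L := by ring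
      rw [h10]
      linarith
    have hk0' : (0:ℝ) ≤ k0 := Nat.cast_nonneg _
    have h11 : κ * k0 ≤ 1 / 8 * k0 := mul_le_mul_of_nonneg_right hκ2 hk0'
    have h12 : 0.6931471803 * (k0 : ℝ) ≤ Real.log 2 * k0 :=
      mul_le_mul_of_nonneg_right hlog2.le hk0'
    have h13 : κ * k0 + 2 * κ * (k0 + 1) - Real.log 2 * (k0 + 1) + Real.log (C0 * L) =
      3 * (κ * k0) + 2 * κ - Real.log 2 * k0 - Real.log 2 + Real.log (C0 * L) := by ring
    rw [h13]
    linarith
  -- conclusion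
  by_contra hcon
  push Not at hcon
  have hsmall : ∀ j ∈ Finset.range n, a ^ (k0 + j + 1) * ‖Dk a (k0 + j) γ‖ <
      Real.exp (-(5 * κ * k0)) := by
    intro j hj
    refine hcon (k0 + j) (by omega) ?_
    have : (j : ℝ) ≤ n := by exact_mod_cast (Finset.mem_range.1 hj).le
    push_cast
    linarith
  have hup : ‖∑ j ∈ Finset.range n, c j * (R : ℂ) ^ (k0 + j + 1) * Dk a (k0 + j) γ‖ ≤
      Sc * (Real.exp (κ * ((1 + κ) * k0 + 1)) * Real.exp (-(5 * κ * k0))) := by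
    rw [hSc, Finset.sum_mul]
    refine norm_sum_le_of_le _ fun j hj => ?_
    rw [norm_mul, norm_mul, norm_pow, Complex.norm_real, Real.norm_eq_abs, abs_of_pos hR0,
      mul_assoc]
    refine mul_le_mul_of_nonneg_left ?_ (norm_nonneg _)
    have hjn : (j : ℝ) ≤ n := by exact_mod_cast (Finset.mem_range.1 hj).le
    calc R ^ (k0 + j + 1) * ‖Dk a (k0 + j) γ‖
        ≤ ((1 + κ) * a) ^ (k0 + j + 1) * ‖Dk a (k0 + j) γ‖ := by gcongr
      _ = (1 + κ) ^ (k0 + j + 1) * (a ^ (k0 + j + 1) * ‖Dk a (k0 + j) γ‖) := by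
          rw [mul_pow]; ring
      _ ≤ Real.exp (κ * ((1 + κ) * k0 + 1)) * Real.exp (-(5 * κ * k0)) := by
          gcongr
          · calc (1 + κ) ^ (k0 + j + 1) ≤ Real.exp κ ^ (k0 + j + 1) := by
                  gcongr
                  have := Real.add_one_le_exp κ
                  linarith
              _ = Real.exp (κ * (k0 + j + 1)) := by
                  rw [← Real.exp_nat_mul]
                  congr 1
                  push_cast
                  ring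
              _ ≤ _ := by
                  apply Real.exp_le_exp.2
                  nlinarith
          · exact (hsmall j hj).le
  have hlow : 1 / 2 ≤ ‖∑ j ∈ Finset.range n, c j * (R : ℂ) ^ (k0 + j + 1) * Dk a (k0 + j) γ‖ := by
    rw [hid] at hE
    have h1 : ‖M‖ ≤ ‖(∑ j ∈ Finset.range n, c j * (R : ℂ) ^ (k0 + j + 1) * Dk a (k0 + j) γ) + M‖ +
        ‖∑ j ∈ Finset.range n, c j * (R : ℂ) ^ (k0 + j + 1) * Dk a (k0 + j) γ‖ := by
      calc ‖M‖ = ‖((∑ j ∈ Finset.range n, c j * (R : ℂ) ^ (k0 + j + 1) * Dk a (k0 + j) γ) + M) -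
            ∑ j ∈ Finset.range n, c j * (R : ℂ) ^ (k0 + j + 1) * Dk a (k0 + j) γ‖ := by
            congr 1; ring
        _ ≤ _ := norm_sub_le _ _
    linarith
  have hfin : (1 / 2 : ℝ) ≤ Real.exp (κ * k0 + 2 * κ * (k0 + 1)) *
      (Real.exp (κ * ((1 + κ) * k0 + 1)) * Real.exp (-(5 * κ * k0))) :=
    (hlow.trans hup).trans (by gcongr)
  rw [← Real.exp_add, ← Real.exp_add, show (1 / 2 : ℝ) = Real.exp (-Real.log 2) by
      rw [Real.exp_neg, Real.exp_log two_pos]; norm_num] at hfin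
  have hfin2 := Real.exp_le_exp.1 hfin
  have hlog2 := Real.log_two_lt_d9
  have hk : (3 * κ + 1) / (κ * (1 - κ)) ≤ k0 := by
    refine le_trans ?_ hk0C
    rw [hC]
    have := abs_nonneg (Real.log (2 * C0))
    linarith
  rw [div_le_iff₀ (by positivity)] at hk
  nlinarith

end Pool.Agent.H76.CR
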