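import Mathlib
import Pool.Agent.H76.CR.ZFacts

/-!
# Large: a crowded zero forces a large value of `ζ` nearby

`s0 = 1 + ε + iγ`.  `loc_log` (`H6/Win/LocLog.lean`) with `R0 = ε`, `R1 = 5ε/2`, `R2 = 3ε` for
`f = riemannZeta` (analytic on `closedBall s0 (3ε)`, `|γ| ≥ C ≥ 2 > 3ε`), constant `K`: if
`‖ζ‖ ≤ exp Λ ‖ζ(s0)‖` on `closedBall s0 (3ε)` then the zeros in `closedBall s0 (5ε/2)` number at most
`K Λ` (each has order `≥ 1`).  Zeros within `ε` of `ρ` satisfy `‖u - s0‖ ≤ ε + (ε + ε/2)`.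
Lower bound `‖ζ(s0)‖ ≥ c0 > 0`, `c0 = c0(ε)`: `norm_inv_riemannZeta_le` (used in `zetaPole_ratio`).
If `‖ζ(s)‖ < H^c'` for all `‖s-ρ‖ ≤ 5ε` (this contains `closedBall s0 (3ε)`), take
`Λ = c' log H + log(1/c0) + 1`: `c log H ≤ nearZeros ε ρ ≤ K Λ`, false for `c' = c/(2K)` and `H ≥ C`.
About 100 lines.
-/

set_option autoImplicit false

open Complex Metric

namespace Pool.Agent.H76.CR

open Pool.Agent.H6 Pool.Agent.H6.Win

theorem large {ε c : ℝ} (hε : 0 < ε) (hε1 : ε ≤ 1 / 4) (hc : 0 < c) :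
    ∃ c' C : ℝ, 0 < c' ∧ 1 ≤ C ∧ ∀ (ρ : ℂ) (H : ℝ), riemannZeta ρ = 0 → 1 - ε / 2 ≤ ρ.re →
      C ≤ |ρ.im| → C ≤ H → c * Real.log H ≤ nearZeros ε ρ →
      ∃ s : ℂ, ‖s - ρ‖ ≤ 5 * ε ∧ H ^ c' ≤ ‖riemannZeta s‖ := by
  obtain ⟨K, hK, hloc⟩ := loc_log (R0 := ε) (R1 := 5 * ε / 2) (R2 := 3 * ε) hε (by linarith)
    (by linarith)
  set B : ℝ := |∑' n : ℕ, 1 / (n : ℝ) ^ (1 + ε)| + 1 with hB
  have hB1 : 1 ≤ B := by
    rw [hB]; linarith [abs_nonneg (∑' n : ℕ, 1 / (n : ℝ) ^ (1 + ε))]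
  have hlB : 0 ≤ Real.log B := Real.log_nonneg hB1
  refine ⟨c / (2 * K), max 3 (Real.exp (2 * K * (Real.log B + 1) / c + 1)), by positivity,
    le_trans (by norm_num) (le_max_left _ _), ?_⟩
  intro ρ H hρ hre him hH hnear
  have hH3 : 3 ≤ H := (le_max_left _ _).trans hH
  have hH0 : 0 < H := by linarith
  have him3 : 3 ≤ |ρ.im| := (le_max_left _ _).trans him
  have hlogH : 2 * K * (Real.log B + 1) / c + 1 ≤ Real.log H := by
    rw [Real.le_log_iff_exp_le hH0]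
    exact (le_max_right _ _).trans hH
  have hlogH0 : 0 < Real.log H := Real.log_pos (by linarith)
  have hre1 : ρ.re < 1 := re_lt_one hρ
  by_contra hcon
  push Not at hcon
  set s0 : ℂ := ((1 + ε : ℝ) : ℂ) + ρ.im * I with hs0
  have hs0re : s0.re = 1 + ε := by simp [hs0]
  have hs0im : s0.im = ρ.im := by simp [hs0]
  have hdist : ‖s0 - ρ‖ = 1 + ε - ρ.re := by
    have h1 : s0 - ρ = ((1 + ε - ρ.re : ℝ) : ℂ) := by
      apply Complex.ext
      · simp [hs0]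
      · simp [hs0]
    rw [h1, Complex.norm_real, Real.norm_eq_abs, abs_of_pos (by linarith)]
  have hζ0 : riemannZeta s0 ≠ 0 :=
    riemannZeta_ne_zero_of_one_le_re (by rw [hs0re]; linarith)
  have hζlow : 1 ≤ B * ‖riemannZeta s0‖ := by
    have h1 := norm_inv_riemannZeta_le (s := s0) (x := 1 + ε) (by linarith) (by rw [hs0re])
    have hpos : 0 < ‖riemannZeta s0‖ := norm_pos_iff.2 hζ0
    rw [norm_inv, inv_le_iff_one_le_mul₀ hpos] at h1
    refine h1.trans ?_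
    gcongr
    rw [hB]
    linarith [le_abs_self (∑' n : ℕ, 1 / (n : ℝ) ^ (1 + ε))]
  set Λ : ℝ := c / (2 * K) * Real.log H + Real.log B + 1 with hΛ
  have hΛ0 : 0 < Λ := by
    have : 0 < c / (2 * K) * Real.log H := by positivity
    rw [hΛ]; linarith
  have hexp : H ^ (c / (2 * K)) * B ≤ Real.exp Λ := by
    have hB0 : 0 < B := by linarith
    rw [hΛ, Real.exp_add, Real.exp_add, Real.exp_log hB0, Real.rpow_def_of_pos hH0,
      mul_comm (Real.log H)]
    have h1 : (1:ℝ) ≤ Real.exp 1 := Real.one_le_exp (by norm_num)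
    have h2 : 0 ≤ Real.exp (c / (2 * K) * Real.log H) * B := by positivity
    nlinarith
  have han : AnalyticOnNhd ℂ riemannZeta (closedBall s0 (3 * ε)) := by
    intro z hz
    rw [mem_closedBall, dist_eq_norm] at hz
    have h1 : z ≠ 1 := by
      rintro rfl
      have h2 := (abs_im_le_norm ((1:ℂ) - s0)).trans hz
      rw [sub_im, one_im, zero_sub, abs_neg, hs0im] at h2
      linarith
    have h3 : DifferentiableOn ℂ riemannZeta {1}ᶜ := fun w hw =>
      (differentiableAt_riemannZeta hw).differentiableWithinAt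
    exact h3.analyticAt (isOpen_compl_singleton.mem_nhds h1)
  have hbd : ∀ z ∈ closedBall s0 (3 * ε), ‖riemannZeta z‖ ≤ Real.exp Λ * ‖riemannZeta s0‖ := by
    intro z hz
    rw [mem_closedBall, dist_eq_norm] at hz
    have h1 : ‖z - ρ‖ ≤ 5 * ε := by
      calc ‖z - ρ‖ = ‖(z - s0) + (s0 - ρ)‖ := by congr 1; ring
        _ ≤ ‖z - s0‖ + ‖s0 - ρ‖ := norm_add_le _ _
        _ ≤ 5 * ε := by rw [hdist]; linarith
    have h2 := (hcon z h1).le
    have hHp : 0 ≤ H ^ (c / (2 * K)) := by positivity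
    calc ‖riemannZeta z‖ ≤ H ^ (c / (2 * K)) := h2
      _ = H ^ (c / (2 * K)) * 1 := by ring
      _ ≤ H ^ (c / (2 * K)) * (B * ‖riemannZeta s0‖) := by gcongr
      _ = H ^ (c / (2 * K)) * B * ‖riemannZeta s0‖ := by ring
      _ ≤ _ := by gcongr
  obtain ⟨S, hS, hord, hsum, -⟩ := hloc riemannZeta s0 Λ hΛ0 han hζ0 hbd
  have hcard : (nearZeros ε ρ : ℝ) ≤ S.card := by
    have h1 : nearZeros ε ρ ≤ S.card := by
      unfold nearZeros
      rw [← Set.ncard_coe_finset S]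
      refine Set.ncard_le_ncard ?_ S.finite_toSet
      rintro u ⟨hu, hur⟩
      rw [Finset.mem_coe, hS, mem_closedBall, dist_eq_norm]
      refine ⟨?_, hu⟩
      calc ‖u - s0‖ = ‖(u - ρ) - (s0 - ρ)‖ := by congr 1; ring
        _ ≤ ‖u - ρ‖ + ‖s0 - ρ‖ := norm_sub_le _ _
        _ ≤ 5 * ε / 2 := by rw [hdist]; linarith
    exact_mod_cast h1
  have hcard2 : (S.card : ℝ) ≤ K * Λ := by
    refine le_trans ?_ hsum
    have h1 : (S.card : ℝ) = ∑ u ∈ S, (1 : ℝ) := by simp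
    rw [h1]
    refine Finset.sum_le_sum fun u hu => ?_
    exact_mod_cast hord u hu
  have hfin : c * Real.log H ≤ K * Λ := hnear.trans (hcard.trans hcard2)
  have hKΛ : K * Λ = c / 2 * Real.log H + K * (Real.log B + 1) := by
    rw [hΛ]; field_simp; ring
  rw [hKΛ] at hfin
  have h9 : c * (2 * K * (Real.log B + 1) / c + 1) = 2 * K * (Real.log B + 1) + c := by
    field_simp
  have h10 : c * (2 * K * (Real.log B + 1) / c + 1) ≤ c * Real.log H := by gcongr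
  rw [h9] at h10
  linarith

end Pool.Agent.H76.CR
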