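import Mathlib
import Pool.Agent.H76.CR.Sep
import Pool.Agent.H76.CR.DerivL

/-!
# RareSep: few separated points where one of the polynomials is large

For `n ≥ 1`: `a^(k+1) dco a k n = a (Λ(n)/n) ((a log n)^k/k!) e^(-a log n) ≤ log n/n`
(`x^k/k! ≤ e^x`, `Λ n ≤ log n`, `a ≤ 1`).  Put `S = Icc ⌈N^(1-7θ)⌉₊ ⌊N⌋₊`, `M = ⌊N⌋₊`.
`∑_{n ∈ S} (log n/n)² ≤ (log N)² ∑_{n ≥ N^(1-7θ)} 1/n² ≤ 2 (log N)² N^(-(1-7θ))` (telescoping
`1/n² ≤ 1/(n-1) - 1/n`; for `N` large `N^(1-7θ) ≥ 2`).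
For each `k ≤ a log N` let `X_k` be the points of `X` with
`N^(-θ) ≤ a^(k+1) ‖∑‖`: `sep_mean` with `H = N` gives
`card X_k N^(-2θ) ≤ C (2N)(1+log N) 2 (log N)² N^(-(1-7θ))`, i.e. `card X_k ≤ 4 C N^(9θ) (1+log N)³`.
Sum over the at most `log N + 1` values of `k` (`X ⊆ ⋃ X_k`): `≤ 4 C N^(9θ) (1+log N)^4 ≤ N^(10θ)`
for `N ≥ N0`.  About 110 lines.
-/

set_option autoImplicit false

open Complex

namespace Pool.Agent.H76.CR

private lemma dco_bound {a : ℝ} (ha : 0 < a) (k n : ℕ) (hn : 1 ≤ n) :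
    a ^ (k + 1) * dco a k n ≤ a * Real.log n / n := by
  have hn0 : (0 : ℝ) < n := by exact_mod_cast hn
  have hl : 0 ≤ Real.log n := Real.log_natCast_nonneg n
  have h1 : (a * Real.log n) ^ k / (k.factorial : ℝ) ≤ (n : ℝ) ^ a := by
    have := Real.pow_div_factorial_le_exp (a * Real.log n) (by positivity) k
    rwa [mul_comm a, Real.exp_mul, Real.exp_log hn0, mul_comm (Real.log n) a] at this
  have h2 : (n : ℝ) ^ a * (n : ℝ) ^ (-(1 + a)) = 1 / n := by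
    rw [← Real.rpow_add hn0]
    have : a + -(1 + a) = -1 := by ring
    rw [this, Real.rpow_neg_one, one_div]
  have h3 : a ^ (k + 1) * dco a k n = a * ArithmeticFunction.vonMangoldt n *
      ((a * Real.log n) ^ k / (k.factorial : ℝ)) * (n : ℝ) ^ (-(1 + a)) := by
    unfold dco
    rw [mul_pow]
    ring
  rw [h3]
  have hL : 0 ≤ ArithmeticFunction.vonMangoldt n := ArithmeticFunction.vonMangoldt_nonneg
  have hr : 0 ≤ (n : ℝ) ^ (-(1 + a)) := by positivity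
  calc a * ArithmeticFunction.vonMangoldt n * ((a * Real.log n) ^ k / (k.factorial : ℝ)) *
        (n : ℝ) ^ (-(1 + a))
      ≤ a * Real.log n * (n : ℝ) ^ a * (n : ℝ) ^ (-(1 + a)) := by
        apply mul_le_mul_of_nonneg_right _ hr
        apply mul_le_mul (mul_le_mul_of_nonneg_left ArithmeticFunction.vonMangoldt_le_log ha.le)
          h1 (by positivity) (by positivity)
    _ = a * Real.log n * ((n : ℝ) ^ a * (n : ℝ) ^ (-(1 + a))) := by ring
    _ = a * Real.log n / n := by rw [h2]; ring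

theorem rare_sep_gen {θ a : ℝ} (hθ : 0 < θ) (ha : 0 < a) :
    ∃ N0 : ℝ, 1 ≤ N0 ∧ ∀ (μ N T : ℝ) (X : Finset ℝ), 0 ≤ μ → N0 ≤ N →
      (∀ x ∈ X, T ≤ x ∧ x ≤ T + N) →
      (∀ x ∈ X, ∀ y ∈ X, x ≠ y → 1 ≤ |x - y|) →
      (∀ x ∈ X, ∃ k : ℕ, (k : ℝ) ≤ a * Real.log N ∧
        N ^ (-μ) ≤ a ^ (k + 1) * ‖∑ n ∈ Finset.Icc ⌈N ^ (1 - 7 * θ)⌉₊ ⌊N⌋₊,
          (dco a k n : ℂ) * (n : ℂ) ^ (-(x * I))‖) →
      (X.card : ℝ) ≤ N ^ (2 * μ + 8 * θ) := by
  obtain ⟨C, hC, hsm⟩ := sep_mean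
  set D : ℝ := 4 * C * a ^ 2 * (1 + a) with hD
  have hD0 : 0 < D := by positivity
  -- growth
  have hev : ∀ᶠ N : ℝ in Filter.atTop, D * (1 + Real.log N) ^ 4 ≤ N ^ θ := by
    have h1 : (fun N : ℝ => D * (1 + Real.log N) ^ 4) =o[Filter.atTop] (fun N : ℝ => N ^ θ) := by
      apply Asymptotics.IsLittleO.const_mul_left
      have h2 : (fun N : ℝ => 1 + Real.log N) =o[Filter.atTop] (fun N : ℝ => N ^ (θ / 4)) := by
        apply Asymptotics.IsLittleO.add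
        · exact Asymptotics.isLittleO_const_left.2 (Or.inr
            (tendsto_norm_atTop_atTop.comp (tendsto_rpow_atTop (by positivity))))
        · exact isLittleO_log_rpow_atTop (by positivity)
      have h3 := h2.pow (n := 4) (by norm_num)
      refine h3.congr' (Filter.EventuallyEq.refl _ _) ?_
      filter_upwards [Filter.eventually_gt_atTop (0 : ℝ)] with N hN
      rw [← Real.rpow_natCast, ← Real.rpow_mul hN.le]
      congr 1
      push_cast; ring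
    filter_upwards [h1.bound one_pos, Filter.eventually_gt_atTop (1 : ℝ)] with N h4 h5
    have h6 : 0 ≤ Real.log N := Real.log_nonneg h5.le
    rw [Real.norm_of_nonneg (by positivity), Real.norm_of_nonneg (by positivity), one_mul] at h4
    exact h4
  obtain ⟨N1, hN1⟩ := Filter.eventually_atTop.1 hev
  refine ⟨max 1 N1, le_max_left _ _, fun μ N T X hμ hN hX hsep hk => ?_⟩
  have hN1' : 1 ≤ N := (le_max_left _ _).trans hN
  have hN0 : 0 < N := by linarith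
  set L := Real.log N with hL
  have hL0 : 0 ≤ L := Real.log_nonneg hN1'
  set M := ⌊N⌋₊ with hM
  set m := ⌈N ^ (1 - 7 * θ)⌉₊ with hm
  have hM1 : 1 ≤ M := Nat.one_le_floor_iff _ |>.2 hN1'
  have hMN : (M : ℝ) ≤ N := Nat.floor_le hN0.le
  have hm1 : 1 ≤ m := Nat.one_le_ceil_iff.2 (by positivity)
  have hmN : N ^ (1 - 7 * θ) ≤ m := Nat.le_ceil _
  -- the bound for one `k`
  have key : ∀ k : ℕ, (((X.filter fun x : ℝ => N ^ (-μ) ≤ a ^ (k + 1) * ‖∑ n ∈ Finset.Icc m M,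
      (dco a k n : ℂ) * (n : ℂ) ^ (-(x * I))‖).card : ℕ) : ℝ) ≤
        4 * C * a ^ 2 * (1 + L) ^ 3 * N ^ (2 * μ + 7 * θ) := by
    intro k
    set Y := X.filter fun x : ℝ => N ^ (-μ) ≤ a ^ (k + 1) * ‖∑ n ∈ Finset.Icc m M,
      (dco a k n : ℂ) * (n : ℂ) ^ (-(x * I))‖ with hY
    have hYX : Y ⊆ X := Finset.filter_subset _ _
    have h1 := hsm T N M (Finset.Icc m M) (fun n => ((a ^ (k + 1) * dco a k n : ℝ) : ℂ)) Y
      hN1' hM1 (fun n hn => ⟨hm1.trans (Finset.mem_Icc.1 hn).1, (Finset.mem_Icc.1 hn).2⟩)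
      (fun x hx => hX x (hYX hx)) (fun x hx y hy => hsep x (hYX hx) y (hYX hy))
    -- lower bound of the left side
    have h2 : (Y.card : ℝ) * N ^ (-(2 * μ)) ≤ ∑ x ∈ Y, ‖∑ n ∈ Finset.Icc m M,
        ((a ^ (k + 1) * dco a k n : ℝ) : ℂ) * (n : ℂ) ^ (-(x * I))‖ ^ 2 := by
      rw [← nsmul_eq_mul]
      apply Finset.card_nsmul_le_sum
      intro x hx
      have h3 : N ^ (-μ) ≤ ‖∑ n ∈ Finset.Icc m M,
          ((a ^ (k + 1) * dco a k n : ℝ) : ℂ) * (n : ℂ) ^ (-(x * I))‖ := by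
        have h4 := (Finset.mem_filter.1 hx).2
        have h5 : ∑ n ∈ Finset.Icc m M,
            ((a ^ (k + 1) * dco a k n : ℝ) : ℂ) * (n : ℂ) ^ (-(x * I)) =
            ((a ^ (k + 1) : ℝ) : ℂ) * ∑ n ∈ Finset.Icc m M,
              (dco a k n : ℂ) * (n : ℂ) ^ (-(x * I)) := by
          rw [Finset.mul_sum]
          apply Finset.sum_congr rfl
          intro n _
          push_cast; ring
        rw [h5, norm_mul, Complex.norm_real, Real.norm_of_nonneg (by positivity)]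
        exact h4
      have h6 : N ^ (-(2 * μ)) = (N ^ (-μ)) ^ 2 := by
        rw [← Real.rpow_natCast, ← Real.rpow_mul hN0.le]
        congr 1; push_cast; ring
      rw [h6]
      exact pow_le_pow_left₀ (by positivity) h3 2
    -- the sum of the squares
    have h7 : ∑ n ∈ Finset.Icc m M, ‖((a ^ (k + 1) * dco a k n : ℝ) : ℂ)‖ ^ 2 ≤
        2 * a ^ 2 * L ^ 2 * N ^ (-(1 - 7 * θ)) := by
      have h8 : ∀ n ∈ Finset.Icc m M, ‖((a ^ (k + 1) * dco a k n : ℝ) : ℂ)‖ ^ 2 ≤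
          a ^ 2 * L ^ 2 * ((n : ℝ) ^ 2)⁻¹ := by
        intro n hn
        have hn1 : 1 ≤ n := hm1.trans (Finset.mem_Icc.1 hn).1
        have hnM : (n : ℝ) ≤ N := (Nat.cast_le.2 (Finset.mem_Icc.1 hn).2).trans hMN
        have hn0 : (0 : ℝ) < n := by exact_mod_cast hn1
        have h9 := dco_bound ha k n hn1
        have h10 : 0 ≤ a ^ (k + 1) * dco a k n := mul_nonneg (by positivity) (dco_nonneg a k n)
        rw [Complex.norm_real, Real.norm_of_nonneg h10]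
        have h11 : a ^ (k + 1) * dco a k n ≤ a * L / n := by
          refine h9.trans ?_
          apply div_le_div_of_nonneg_right _ hn0.le
          exact mul_le_mul_of_nonneg_left (Real.log_le_log hn0 hnM) ha.le
        calc (a ^ (k + 1) * dco a k n) ^ 2 ≤ (a * L / n) ^ 2 := pow_le_pow_left₀ h10 h11 2
          _ = a ^ 2 * L ^ 2 * ((n : ℝ) ^ 2)⁻¹ := by field_simp
      refine (Finset.sum_le_sum h8).trans ?_
      rw [← Finset.mul_sum]
      have h12 : ∑ n ∈ Finset.Icc m M, ((n : ℝ) ^ 2)⁻¹ ≤ 2 / m := by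
        have h13 : Finset.Icc m M = Finset.Ioo (m - 1) (M + 1) := by
          ext n; simp only [Finset.mem_Icc, Finset.mem_Ioo]; omega
        rw [h13]
        refine (sum_Ioo_inv_sq_le (m - 1) (M + 1)).trans ?_
        have : ((m - 1 : ℕ) : ℝ) + 1 = m := by
          rw [Nat.cast_sub hm1]; push_cast; ring
        rw [this]
      have h14 : 2 / (m : ℝ) ≤ 2 * N ^ (-(1 - 7 * θ)) := by
        rw [Real.rpow_neg hN0.le, ← div_eq_mul_inv]
        exact div_le_div_of_nonneg_left (by norm_num) (by positivity) hmN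
      calc a ^ 2 * L ^ 2 * ∑ n ∈ Finset.Icc m M, ((n : ℝ) ^ 2)⁻¹
          ≤ a ^ 2 * L ^ 2 * (2 * N ^ (-(1 - 7 * θ))) :=
            mul_le_mul_of_nonneg_left (h12.trans h14) (by positivity)
        _ = 2 * a ^ 2 * L ^ 2 * N ^ (-(1 - 7 * θ)) := by ring
    have hlogM : Real.log M ≤ L := Real.log_le_log (by exact_mod_cast hM1) hMN
    have hlogM0 : 0 ≤ Real.log M := Real.log_natCast_nonneg M
    have h15 : C * (N + M) * (1 + Real.log M) * ∑ n ∈ Finset.Icc m M,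
        ‖((a ^ (k + 1) * dco a k n : ℝ) : ℂ)‖ ^ 2 ≤
        4 * C * a ^ 2 * (1 + L) ^ 3 * N ^ (7 * θ) := by
      have h16 : C * (N + M) * (1 + Real.log M) ≤ C * (2 * N) * (1 + L) := by
        apply mul_le_mul _ (by linarith) (by positivity) (by positivity)
        apply mul_le_mul_of_nonneg_left _ hC.le
        linarith
      have h17 : C * (2 * N) * (1 + L) * (2 * a ^ 2 * L ^ 2 * N ^ (-(1 - 7 * θ))) =
          4 * C * a ^ 2 * ((1 + L) * L ^ 2) * N ^ (7 * θ) := by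
        have : N * N ^ (-(1 - 7 * θ)) = N ^ (7 * θ) := by
          nth_rewrite 1 [← Real.rpow_one N]
          rw [← Real.rpow_add hN0]
          congr 1; ring
        rw [← this]; ring
      calc _ ≤ C * (2 * N) * (1 + L) * (2 * a ^ 2 * L ^ 2 * N ^ (-(1 - 7 * θ))) := by
            apply mul_le_mul h16 h7 (Finset.sum_nonneg fun _ _ => by positivity) (by positivity)
        _ = 4 * C * a ^ 2 * ((1 + L) * L ^ 2) * N ^ (7 * θ) := h17
        _ ≤ 4 * C * a ^ 2 * (1 + L) ^ 3 * N ^ (7 * θ) := by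
            apply mul_le_mul_of_nonneg_right _ (by positivity)
            apply mul_le_mul_of_nonneg_left _ (by positivity)
            nlinarith [mul_nonneg hL0 hL0, mul_nonneg (mul_nonneg hL0 hL0) hL0]
    have h18 : (Y.card : ℝ) * N ^ (-(2 * μ)) ≤ 4 * C * a ^ 2 * (1 + L) ^ 3 * N ^ (7 * θ) :=
      (h2.trans h1).trans h15
    have h19 : (Y.card : ℝ) = (Y.card : ℝ) * N ^ (-(2 * μ)) * N ^ (2 * μ) := by
      rw [mul_assoc, ← Real.rpow_add hN0]; simp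
    rw [h19]
    calc (Y.card : ℝ) * N ^ (-(2 * μ)) * N ^ (2 * μ)
        ≤ 4 * C * a ^ 2 * (1 + L) ^ 3 * N ^ (7 * θ) * N ^ (2 * μ) :=
          mul_le_mul_of_nonneg_right h18 (by positivity)
      _ = 4 * C * a ^ 2 * (1 + L) ^ 3 * N ^ (2 * μ + 7 * θ) := by
          rw [mul_assoc, ← Real.rpow_add hN0]
          congr 2; ring
  -- the union over `k`
  have hcov : X ⊆ (Finset.range (⌊a * L⌋₊ + 1)).biUnion fun k =>
      X.filter fun x : ℝ => N ^ (-μ) ≤ a ^ (k + 1) * ‖∑ n ∈ Finset.Icc m M,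
        (dco a k n : ℂ) * (n : ℂ) ^ (-(x * I))‖ := by
    intro x hx
    obtain ⟨k, hk1, hk2⟩ := hk x hx
    rw [Finset.mem_biUnion]
    exact ⟨k, Finset.mem_range.2 (Nat.lt_succ_of_le (Nat.le_floor hk1)),
      Finset.mem_filter.2 ⟨hx, hk2⟩⟩
  have h20 : (X.card : ℝ) ≤ ∑ k ∈ Finset.range (⌊a * L⌋₊ + 1),
      4 * C * a ^ 2 * (1 + L) ^ 3 * N ^ (2 * μ + 7 * θ) := by
    refine (Nat.cast_le.2 ((Finset.card_le_card hcov).trans Finset.card_biUnion_le)).trans ?_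
    rw [Nat.cast_sum]
    exact Finset.sum_le_sum fun k _ => key k
  rw [Finset.sum_const, Finset.card_range, nsmul_eq_mul] at h20
  have h21 : ((⌊a * L⌋₊ + 1 : ℕ) : ℝ) ≤ (1 + a) * (1 + L) := by
    push_cast
    have := Nat.floor_le (mul_nonneg ha.le hL0)
    nlinarith
  have h22 : D * (1 + L) ^ 4 ≤ N ^ θ := hN1 N ((le_max_right _ _).trans hN)
  calc (X.card : ℝ) ≤ ((⌊a * L⌋₊ + 1 : ℕ) : ℝ) *
        (4 * C * a ^ 2 * (1 + L) ^ 3 * N ^ (2 * μ + 7 * θ)) := h20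
    _ ≤ (1 + a) * (1 + L) * (4 * C * a ^ 2 * (1 + L) ^ 3 * N ^ (2 * μ + 7 * θ)) :=
        mul_le_mul_of_nonneg_right h21 (by positivity)
    _ = D * (1 + L) ^ 4 * N ^ (2 * μ + 7 * θ) := by rw [hD]; ring
    _ ≤ N ^ θ * N ^ (2 * μ + 7 * θ) := mul_le_mul_of_nonneg_right h22 (by positivity)
    _ = N ^ (2 * μ + 8 * θ) := by
        rw [← Real.rpow_add hN0]
        congr 1; ring

theorem rare_sep {θ a : ℝ} (hθ : 0 < θ) (_hθ1 : θ ≤ 1 / 8) (ha : 0 < a) (_ha1 : a ≤ 1) :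
    ∃ N0 : ℝ, 1 ≤ N0 ∧ ∀ (N T : ℝ) (X : Finset ℝ), N0 ≤ N → (∀ x ∈ X, T ≤ x ∧ x ≤ T + N) →
      (∀ x ∈ X, ∀ y ∈ X, x ≠ y → 1 ≤ |x - y|) →
      (∀ x ∈ X, ∃ k : ℕ, (k : ℝ) ≤ a * Real.log N ∧
        N ^ (-θ) ≤ a ^ (k + 1) * ‖∑ n ∈ Finset.Icc ⌈N ^ (1 - 7 * θ)⌉₊ ⌊N⌋₊,
          (dco a k n : ℂ) * (n : ℂ) ^ (-(x * I))‖) →
      (X.card : ℝ) ≤ N ^ (10 * θ) := by
  obtain ⟨N0, h0, h⟩ := rare_sep_gen hθ ha
  refine ⟨N0, h0, fun N T X hN hX hs hk => ?_⟩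
  have := h θ N T X hθ.le hN hX hs hk
  have h2 : 2 * θ + 8 * θ = 10 * θ := by ring
  rwa [h2] at this

end Pool.Agent.H76.CR
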