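import Mathlib
import Pool.Agent.H76.CR.Detect
import Pool.Agent.H76.CR.Tail

/-!
# Seen: a zero with few distinct neighbours is seen by the primes in `[N^(1-7θ), N]`

`κ = θ²/16`.  Given `N`, put `k0 = ⌊a log N/(1+4θ)⌋`.  Then `(1+4θ) k0 ≤ a log N`, and with
`N1 = N^(1-7θ)`: `a log N1 = (1-7θ) a log N ≤ (1-2θ) k0` for `N` large, because
`k0 ≥ a log N/(1+4θ) - 1` and `(1-2θ)/(1+4θ) ≥ 1 - 6θ` (so the difference is `θ a log N - 1 ≥ 0`).
`N ≥ (log |γ|)^C`, `|γ| ≥ C` with `C` large makes `N` as large as we like and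
`k0 ≥ C1 loglog(|γ|+2) + C1` (`k0 ≥ a log N/2 - 1 ≥ (a C/2) loglog |γ| - 1`).
`detect` gives `k ≤ (1+κ) k0 ≤ (1+θ) k0` with `exp(-5κk0) ≤ a^(k+1) ‖Dk a k γ‖`.  With
`F = Icc ⌈N^(1-7θ)⌉₊ ⌊N⌋₊` (contains all `n` with `N1 ≤ n ≤ N`), `‖Dk - ∑_{n ∈ F}‖ ≤ tail ≤
C2 exp(-θ² k0)/a^(k+1)`, and `5κ = 5θ²/16 < θ²`, so for `k0` large
`a^(k+1) ‖∑_{n∈F}‖ ≥ (1/2) exp(-5κ k0) ≥ N^(-θ)` (`5κk0 ≤ 5κ a log N ≤ (θ/2) log N`).
`k ≤ (1+θ) k0 ≤ a log N`.  The constant `c = κ/log(160/κ) * a/4`: `c log N ≤ κ/log(160/κ) k0` since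
`k0 ≥ a log N/4`.
-/

set_option autoImplicit false

open Complex

namespace Pool.Agent.H76.CR

/-- A series with nonnegative coefficients and unimodular factors, minus a finite part. -/
private theorem tsum_sub_sum_le {g : ℕ → ℝ} (hg : ∀ n, 0 ≤ g n) (hs : Summable g) {z : ℕ → ℂ}
    (hz : ∀ n, ‖z n‖ ≤ 1) (F : Finset ℕ) :
    ‖(∑' n : ℕ, (g n : ℂ) * z n) - ∑ n ∈ F, (g n : ℂ) * z n‖ ≤
      ∑' n : ℕ, (if n ∈ F then 0 else g n) := by
  have hb : ∀ n, ‖(g n : ℂ) * z n‖ ≤ g n := by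
    intro n
    rw [norm_mul, Complex.norm_real, Real.norm_of_nonneg (hg n)]
    exact mul_le_of_le_one_right (hg n) (hz n)
  have hsz : Summable fun n => (g n : ℂ) * z n := Summable.of_norm_bounded hs hb
  have h1 : Summable fun n : ℕ => (if n ∈ F then (0 : ℂ) else (g n : ℂ) * z n) := by
    refine Summable.of_norm_bounded hs fun n => ?_
    split_ifs with h
    · simpa using hg n
    · exact hb n
  have h2 : Summable fun n : ℕ => (if n ∈ F then (g n : ℂ) * z n else 0) := by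
    refine Summable.of_norm_bounded hs fun n => ?_
    split_ifs with h
    · exact hb n
    · simpa using hg n
  have h3 : (∑' n : ℕ, (g n : ℂ) * z n) =
      (∑' n : ℕ, (if n ∈ F then (g n : ℂ) * z n else 0)) +
        ∑' n : ℕ, (if n ∈ F then (0 : ℂ) else (g n : ℂ) * z n) := by
    rw [← h2.tsum_add h1]
    refine tsum_congr fun n => ?_
    split_ifs <;> simp
  have h4 : (∑' n : ℕ, (if n ∈ F then (g n : ℂ) * z n else 0)) = ∑ n ∈ F, (g n : ℂ) * z n := by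
    rw [tsum_eq_sum (s := F) (fun n hn => if_neg hn)]
    exact Finset.sum_congr rfl fun n hn => if_pos hn
  rw [h3, h4, add_sub_cancel_left]
  have h5 : Summable fun n : ℕ => (if n ∈ F then (0 : ℝ) else g n) := by
    refine Summable.of_nonneg_of_le (fun n => ?_) (fun n => ?_) hs
    · split_ifs
      · exact le_rfl
      · exact hg n
    · split_ifs
      · exact hg n
      · exact le_rfl
  refine tsum_of_norm_bounded h5.hasSum fun n => ?_
  split_ifs with h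
  · simp
  · exact hb n

private theorem norm_cpow_unit_le (n : ℕ) (t : ℝ) : ‖(n : ℂ) ^ (-(t * I))‖ ≤ 1 := by
  rcases Nat.eq_zero_or_pos n with rfl | hn
  · rw [Nat.cast_zero]
    by_cases h : (-(t * I) : ℂ) = 0
    · rw [h]; simp
    · rw [Complex.zero_cpow h]; simp
  · rw [Complex.norm_natCast_cpow_of_pos hn]
    simp

theorem seen {θ a : ℝ} (hθ : 0 < θ) (hθ1 : θ ≤ 1 / 8) (ha : 0 < a) (ha1 : a ≤ 1 / 16) :
    ∃ c C : ℝ, 0 < c ∧ 1 ≤ C ∧ ∀ (ρ : ℂ) (N : ℝ), riemannZeta ρ = 0 →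
      1 - θ ^ 2 / 16 * a ≤ ρ.re → C ≤ |ρ.im| → Real.log |ρ.im| ^ C ≤ N →
      (nearZeros (4 * a) ρ : ℝ) < c * Real.log N →
      ∃ k : ℕ, (k : ℝ) ≤ a * Real.log N ∧
        N ^ (-θ) ≤ a ^ (k + 1) * ‖∑ n ∈ Finset.Icc ⌈N ^ (1 - 7 * θ)⌉₊ ⌊N⌋₊,
          (dco a k n : ℂ) * (n : ℂ) ^ (-(ρ.im * I))‖ := by
  obtain ⟨κ, hκ⟩ : ∃ κ : ℝ, κ = θ ^ 2 / 16 := ⟨_, rfl⟩
  have hκ0 : 0 < κ := by rw [hκ]; positivity
  have hκθ : κ ≤ θ / 128 := by rw [hκ]; nlinarith
  have hκ8 : κ ≤ 1 / 8 := by linarith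
  obtain ⟨C1, hC1, hdet⟩ := detect hκ0 hκ8
  obtain ⟨C2, hC2, htail⟩ := tail hθ hθ1 ha (by linarith : a ≤ 1)
  have hlog : 0 < Real.log (160 / κ) := by
    apply Real.log_pos
    rw [lt_div_iff₀ hκ0]
    linarith
  -- the constant
  have p1 : 0 < Real.exp (Real.exp 1) := Real.exp_pos _
  have p2 : 0 < 16 * C1 / a := by positivity
  have p3 : 0 < 16 * C2 / (θ ^ 2 * a) := by positivity
  have p4 : 0 < 3 / a := by positivity
  have p5 : 0 < 1 / (θ * a) := by positivity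
  have p6 : 0 < 2 / θ := by positivity
  obtain ⟨C, hC⟩ : ∃ C : ℝ, C = Real.exp (Real.exp 1) + 16 * C1 / a + 16 * C2 / (θ ^ 2 * a) +
    3 / a + 1 / (θ * a) + 2 / θ := ⟨_, rfl⟩
  have hexp1 : (2 : ℝ) ≤ Real.exp 1 := by have := Real.add_one_le_exp (1 : ℝ); linarith
  have hexp2 : (3 : ℝ) ≤ Real.exp (Real.exp 1) := by
    have := Real.add_one_le_exp (Real.exp 1); linarith
  refine ⟨κ / Real.log (160 / κ) * (a / 4), C, by positivity, by linarith, ?_⟩
  intro ρ N hζ hre hIm hN hnear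
  rw [← hκ] at hre
  have hIm3 : 3 ≤ |ρ.im| := by linarith
  have hIm0 : 0 < |ρ.im| := by linarith
  -- `log |γ| ≥ e`
  have hl1 : Real.exp 1 ≤ Real.log |ρ.im| := by
    rw [Real.le_log_iff_exp_le hIm0]
    linarith
  have hl0 : 0 < Real.log |ρ.im| := by linarith
  have hll : 1 ≤ Real.log (Real.log |ρ.im|) := by
    rw [Real.le_log_iff_exp_le hl0]
    exact hl1
  have hN0 : 0 < N := lt_of_lt_of_le (Real.rpow_pos_of_pos hl0 _) hN
  have hCpos : 0 < C := by linarith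
  have hL : C * Real.log (Real.log |ρ.im|) ≤ Real.log N := by
    rw [← Real.log_rpow hl0]
    exact Real.log_le_log (Real.rpow_pos_of_pos hl0 _) hN
  obtain ⟨L, hLdef⟩ : ∃ L : ℝ, L = Real.log N := ⟨_, rfl⟩
  rw [← hLdef] at hL hnear ⊢
  have hLC : C ≤ L := by nlinarith
  have hL1 : 16 * C1 ≤ a * L := by
    have : 16 * C1 / a ≤ L := by linarith
    have h' := (div_le_iff₀ ha).1 this
    linarith
  have hL2 : 16 * C2 ≤ θ ^ 2 * a * L := by
    have : 16 * C2 / (θ ^ 2 * a) ≤ L := by linarith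
    have h' := (div_le_iff₀ (by positivity)).1 this
    linarith
  have hL3 : 3 ≤ a * L := by
    have : 3 / a ≤ L := by linarith
    have h' := (div_le_iff₀ ha).1 this
    linarith
  have hL4 : 1 ≤ θ * a * L := by
    have : 1 / (θ * a) ≤ L := by linarith
    have h' := (div_le_iff₀ (by positivity)).1 this
    linarith
  have hL5 : 2 ≤ θ * L := by
    have : 2 / θ ≤ L := by linarith
    have h' := (div_le_iff₀ hθ).1 this
    linarith
  have hL0 : 0 < L := by linarith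
  -- k0
  have h4 : 0 < 1 + 4 * θ := by linarith
  obtain ⟨k0, hk0⟩ : ∃ k0 : ℕ, k0 = ⌊a * L / (1 + 4 * θ)⌋₊ := ⟨_, rfl⟩
  have hk0le : (k0 : ℝ) ≤ a * L / (1 + 4 * θ) := by
    rw [hk0]; exact Nat.floor_le (by positivity)
  have hk0lt : a * L / (1 + 4 * θ) < k0 + 1 := by
    rw [hk0]; exact Nat.lt_floor_add_one _
  have hk0' : (1 + 4 * θ) * k0 ≤ a * L := by
    rw [le_div_iff₀ h4] at hk0le; linarith
  have hk0'' : a * L < (k0 + 1) * (1 + 4 * θ) := by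
    rwa [div_lt_iff₀ h4] at hk0lt
  have hk0nn : (0 : ℝ) ≤ k0 := Nat.cast_nonneg _
  have hquarter : a * L / 4 ≤ k0 := by nlinarith
  -- detect
  have hR3 : C1 * Real.log (Real.log (|ρ.im| + 2)) + C1 ≤ k0 := by
    have e1 : Real.log (|ρ.im| + 2) ≤ 2 * Real.log |ρ.im| := by
      have : 2 * Real.log |ρ.im| = Real.log (|ρ.im| ^ 2) := by
        rw [Real.log_pow]; norm_num
      rw [this]
      apply Real.log_le_log (by linarith)
      nlinarith
    have e2 : Real.log (Real.log (|ρ.im| + 2)) ≤ 1 + Real.log (Real.log |ρ.im|) := by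
      have e3 : 0 < Real.log (|ρ.im| + 2) := Real.log_pos (by linarith)
      calc Real.log (Real.log (|ρ.im| + 2)) ≤ Real.log (2 * Real.log |ρ.im|) :=
            Real.log_le_log e3 e1
        _ = Real.log 2 + Real.log (Real.log |ρ.im|) := Real.log_mul (by norm_num) hl0.ne'
        _ ≤ 1 + Real.log (Real.log |ρ.im|) := by
            have := Real.log_two_lt_d9
            linarith
    have e4 : C1 * Real.log (Real.log (|ρ.im| + 2)) ≤
        C1 * (1 + Real.log (Real.log |ρ.im|)) := mul_le_mul_of_nonneg_left e2 hC1.le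
    have e5 : 16 * C1 / a * Real.log (Real.log |ρ.im|) ≤ L := by
      refine le_trans (mul_le_mul_of_nonneg_right ?_ (by linarith)) hL
      linarith
    have e6 : 16 * C1 * Real.log (Real.log |ρ.im|) ≤ a * L := by
      have : 16 * C1 * Real.log (Real.log |ρ.im|) =
        a * (16 * C1 / a * Real.log (Real.log |ρ.im|)) := by field_simp
      rw [this]
      exact mul_le_mul_of_nonneg_left e5 ha.le
    nlinarith
  have hnear' : (nearZeros (4 * a) ρ : ℝ) ≤ κ / Real.log (160 / κ) * k0 := by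
    refine hnear.le.trans ?_
    have : κ / Real.log (160 / κ) * (a / 4) * L = κ / Real.log (160 / κ) * (a * L / 4) := by ring
    rw [this]
    exact mul_le_mul_of_nonneg_left hquarter (by positivity)
  obtain ⟨k, hk1, hk2, hk3⟩ := hdet a ρ k0 ha ha1 hζ hre (by linarith) hR3 hnear'
  have hk1θ : (k : ℝ) ≤ (1 + θ) * k0 := by
    refine hk2.trans (mul_le_mul_of_nonneg_right ?_ hk0nn)
    linarith
  -- the tail
  have hN1 : 0 < N ^ (1 - 7 * θ) := Real.rpow_pos_of_pos hN0 _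
  have hlogN1 : a * Real.log (N ^ (1 - 7 * θ)) ≤ (1 - 2 * θ) * k0 := by
    rw [Real.log_rpow hN0, ← hLdef]
    have f1 : (1 - 6 * θ) * (1 + 4 * θ) ≤ 1 - 2 * θ := by nlinarith
    have f2 : (1 - 6 * θ) * (a * L) ≤ (1 - 6 * θ) * ((k0 + 1) * (1 + 4 * θ)) :=
      mul_le_mul_of_nonneg_left hk0''.le (by linarith)
    have f3 : (1 - 6 * θ) * ((k0 + 1) * (1 + 4 * θ)) ≤ (1 - 2 * θ) * (k0 + 1) := by
      have : (1 - 6 * θ) * ((k0 + 1) * (1 + 4 * θ)) = (1 - 6 * θ) * (1 + 4 * θ) * (k0 + 1) := by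
        ring
      rw [this]
      exact mul_le_mul_of_nonneg_right f1 (by linarith)
    nlinarith
  obtain ⟨F, hF⟩ : ∃ F : Finset ℕ, F = Finset.Icc ⌈N ^ (1 - 7 * θ)⌉₊ ⌊N⌋₊ := ⟨_, rfl⟩
  have hmem : ∀ n : ℕ, N ^ (1 - 7 * θ) ≤ n → (n : ℝ) ≤ N → n ∈ F := by
    intro n h1 h2
    rw [hF, Finset.mem_Icc]
    exact ⟨Nat.ceil_le.2 h1, Nat.le_floor h2⟩
  have ht := htail k0 k (N ^ (1 - 7 * θ)) N hk1 hk1θ hN1 hN0 hlogN1
    (by rw [← hLdef]; exact hk0') F hmem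
  have happ := tsum_sub_sum_le (fun n => dco_nonneg a k n) (summable_dco ha k)
    (fun n => norm_cpow_unit_le n ρ.im) F
  rw [← hF]
  have hak : 0 < a ^ (k + 1) := pow_pos ha _
  refine ⟨k, ?_, ?_⟩
  · refine hk1θ.trans (le_trans (mul_le_mul_of_nonneg_right ?_ hk0nn) hk0')
    linarith
  have g1 : ‖Dk a k ρ.im‖ ≤ ‖∑ n ∈ F, (dco a k n : ℂ) * (n : ℂ) ^ (-(ρ.im * I))‖ +
      C2 * Real.exp (-(θ ^ 2 * k0)) / a ^ (k + 1) := by
    have := norm_le_norm_add_norm_sub' (Dk a k ρ.im)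
      (∑ n ∈ F, (dco a k n : ℂ) * (n : ℂ) ^ (-(ρ.im * I)))
    have h' : ‖Dk a k ρ.im - ∑ n ∈ F, (dco a k n : ℂ) * (n : ℂ) ^ (-(ρ.im * I))‖ ≤
        C2 * Real.exp (-(θ ^ 2 * k0)) / a ^ (k + 1) := happ.trans ht
    linarith
  have g2 : a ^ (k + 1) * ‖Dk a k ρ.im‖ ≤
      a ^ (k + 1) * ‖∑ n ∈ F, (dco a k n : ℂ) * (n : ℂ) ^ (-(ρ.im * I))‖ +
      C2 * Real.exp (-(θ ^ 2 * k0)) := by
    have := mul_le_mul_of_nonneg_left g1 hak.le
    rw [mul_add, mul_div_cancel₀ _ hak.ne'] at this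
    exact this
  -- the tail is at most half
  have g3 : C2 * Real.exp (-(θ ^ 2 * k0)) ≤ 1 / 2 * Real.exp (-(5 * κ * k0)) := by
    have q1 : Real.exp (-(θ ^ 2 * k0)) = Real.exp (-(11 / 16 * θ ^ 2 * k0)) *
        Real.exp (-(5 * κ * k0)) := by
      rw [← Real.exp_add, hκ]
      congr 1
      ring
    have q2 : 2 * C2 ≤ 11 / 16 * θ ^ 2 * k0 := by
      have : θ ^ 2 * (a * L / 4) ≤ θ ^ 2 * k0 := mul_le_mul_of_nonneg_left hquarter (by positivity)
      nlinarith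
    have q3 : C2 * Real.exp (-(11 / 16 * θ ^ 2 * k0)) ≤ 1 / 2 := by
      rw [Real.exp_neg, ← div_eq_mul_inv, div_le_iff₀ (Real.exp_pos _)]
      have := Real.add_one_le_exp (11 / 16 * θ ^ 2 * (k0 : ℝ))
      linarith
    rw [q1, ← mul_assoc]
    exact mul_le_mul_of_nonneg_right q3 (Real.exp_pos _).le
  have g4 : N ^ (-θ) ≤ 1 / 2 * Real.exp (-(5 * κ * k0)) := by
    rw [Real.rpow_def_of_pos hN0, ← hLdef]
    have r1 : 5 * κ * k0 ≤ θ / 2 * L := by
      have r2 : (k0 : ℝ) ≤ L := by nlinarith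
      have r3 : 5 * κ ≤ θ / 2 := by linarith
      exact mul_le_mul r3 r2 hk0nn (by linarith)
    have r4 : Real.exp (L * -θ) = Real.exp (-(θ / 2 * L)) * Real.exp (-(θ / 2 * L)) := by
      rw [← Real.exp_add]; congr 1; ring
    rw [r4]
    have r5 : Real.exp (-(θ / 2 * L)) ≤ 1 / 2 := by
      rw [Real.exp_neg, ← one_div]
      apply one_div_le_one_div_of_le (by norm_num)
      have := Real.add_one_le_exp (θ / 2 * L)
      linarith
    have r6 : Real.exp (-(θ / 2 * L)) ≤ Real.exp (-(5 * κ * k0)) :=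
      Real.exp_le_exp.2 (by linarith)
    exact mul_le_mul r5 r6 (Real.exp_pos _).le (by norm_num)
  linarith

end Pool.Agent.H76.CR
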