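import Mathlib
import Pool.Agent.H76.CR.Defs
import Pool.Agent.H76.CR.ZFacts

/-!
# Spread: from separated ordinates to all zeros, with multiplicity

`S` is a finite set of zeros with ordinates in `[T, T+H]`, real parts `≥ 3/4`, and every `1`-separated
set of ordinates of elements of `S` has at most `B` elements.  Group the elements of `S` by
`⌊im⌋`; choosing one ordinate for every occupied EVEN integer (resp. odd) gives a `1`-separated set,
so at most `2B` integers are occupied, and for each the total multiplicity is at most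
`C log(T+H+3)`: `local_count` (`H6/Win/ZetaLoc.lean`) with `σ1 = 5/8`, `σ = 11/16` covers heights
`|im - t| ≤ 1/16`, so use `16` values of `t`; `zord_eq` converts the multiplicities.
About 130 lines.
-/

set_option autoImplicit false

open Complex

namespace Pool.Agent.H76.CR

open Pool.Agent.H6 Pool.Agent.H6.Win

theorem spread : ∃ C : ℝ, 0 < C ∧ ∀ (T H B : ℝ) (S : Finset ℂ), 1 ≤ T → 0 ≤ H → 0 ≤ B →
    (∀ ρ ∈ S, riemannZeta ρ = 0 ∧ 3 / 4 ≤ ρ.re ∧ T ≤ ρ.im ∧ ρ.im ≤ T + H) →
    (∀ X : Finset ℝ, (∀ x ∈ X, ∃ ρ ∈ S, ρ.im = x) → (∀ x ∈ X, ∀ y ∈ X, x ≠ y → 1 ≤ |x - y|) →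
      (X.card : ℝ) ≤ B) →
    ∑ ρ ∈ S, (analyticOrderNatAt riemannZeta ρ : ℝ) ≤ C * B * Real.log (T + H + 3) := by
  classical
  obtain ⟨C, hC, hloc⟩ := local_count (σ1 := 5 / 8) (σ := 11 / 16) (by norm_num) (by norm_num)
    (by norm_num)
  refine ⟨16 * C, by positivity, ?_⟩
  intro T H B S hT hH hB hS hX
  set Lg : ℝ := Real.log (T + H + 3) with hLg
  have hLg0 : 0 ≤ Lg := Real.log_nonneg (by linarith)
  set φ : ℂ → ℤ := fun ρ => ⌊8 * ρ.im⌋ with hφ
  have hfl : ∀ ρ : ℂ, (φ ρ : ℝ) ≤ 8 * ρ.im ∧ 8 * ρ.im < φ ρ + 1 := fun ρ =>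
    ⟨Int.floor_le _, Int.lt_floor_add_one _⟩
  set Q : Finset ℤ := S.image φ with hQ
  have hch : ∀ q ∈ Q, ∃ ρ ∈ S, φ ρ = q := fun q hq => by
    rw [hQ, Finset.mem_image] at hq
    exact hq
  choose! f hf1 hf2 using hch
  -- the number of classes
  have hclass : ∀ r ∈ Finset.range 16, ((Q.filter (fun q => q % 16 = (r : ℤ))).card : ℝ) ≤ B := by
    intro r _
    have hsep : ∀ q ∈ Q.filter (fun q => q % 16 = (r : ℤ)),
        ∀ q' ∈ Q.filter (fun q => q % 16 = (r : ℤ)), q < q' → 1 ≤ (f q').im - (f q).im := by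
      intro q hq q' hq' hlt
      rw [Finset.mem_filter] at hq hq'
      have h16 : q + 16 ≤ q' := by omega
      have h1 := (hfl (f q)).2
      have h2 := (hfl (f q')).1
      rw [hf2 q hq.1] at h1
      rw [hf2 q' hq'.1] at h2
      have h3 : (q : ℝ) + 16 ≤ q' := by exact_mod_cast h16
      linarith
    have hinj : Set.InjOn (fun q => (f q).im) (Q.filter (fun q => q % 16 = (r : ℤ)) : Set ℤ) := by
      intro q hq q' hq' he
      rw [Finset.mem_coe] at hq hq'
      simp only at he
      rcases lt_trichotomy q q' with h | h | h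
      · have := hsep q hq q' hq' h
        linarith
      · exact h
      · have := hsep q' hq' q hq h
        linarith
    rw [← Finset.card_image_of_injOn hinj]
    apply hX
    · intro x hx
      rw [Finset.mem_image] at hx
      obtain ⟨q, hq, rfl⟩ := hx
      rw [Finset.mem_filter] at hq
      exact ⟨f q, hf1 q hq.1, rfl⟩
    · intro x hx y hy hne
      rw [Finset.mem_image] at hx hy
      obtain ⟨q, hq, rfl⟩ := hx
      obtain ⟨q', hq', rfl⟩ := hy
      rcases lt_trichotomy q q' with h | h | h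
      · rw [abs_sub_comm]
        exact (hsep q hq q' hq' h).trans (le_abs_self _)
      · exact absurd (by rw [h]) hne
      · exact (hsep q' hq' q hq h).trans (le_abs_self _)
  have hcard : (Q.card : ℝ) ≤ 16 * B := by
    have h1 : Q.card = ∑ r ∈ Finset.range 16, (Q.filter (fun q => q % 16 = (r : ℤ))).card := by
      have hmaps : ∀ q ∈ Q, (q % 16).toNat ∈ Finset.range 16 := by
        intro q _
        rw [Finset.mem_range]
        omega
      rw [Finset.card_eq_sum_card_fiberwise hmaps]
      refine Finset.sum_congr rfl fun r _ => ?_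
      congr 1
      apply Finset.filter_congr
      intro q _
      omega
    rw [h1]
    push_cast
    calc (∑ r ∈ Finset.range 16, ((Q.filter (fun q => q % 16 = (r : ℤ))).card : ℝ))
        ≤ ∑ r ∈ Finset.range 16, B := Finset.sum_le_sum hclass
      _ = 16 * B := by simp
  -- one fibre
  have hfib : ∀ q ∈ Q, ∑ ρ ∈ S.filter (fun ρ => φ ρ = q),
      (analyticOrderNatAt riemannZeta ρ : ℝ) ≤ C * Lg := by
    intro q hq
    set t : ℝ := (q + 1 / 2) / 8 with ht
    have h := hloc t (S.filter (fun ρ => φ ρ = q)) ?_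
    · have hne : ∀ ρ ∈ S.filter (fun ρ => φ ρ = q), ρ ≠ 1 := by
        intro ρ hρ
        rw [Finset.mem_filter] at hρ
        rintro rfl
        have := (hS 1 hρ.1).2.2.1
        simp at this
        linarith
      rw [Finset.sum_congr rfl (fun ρ hρ => by rw [← zord_eq (hne ρ hρ)])]
      refine h.trans ?_
      have h1 := hf1 q hq
      have h2 := hfl (f q)
      rw [hf2 q hq] at h2
      have h3 := (hS _ h1).2.2
      have ht0 : 0 ≤ t := by rw [ht]; linarith
      rw [abs_of_nonneg ht0, hLg]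
      have h4 : t + 2 ≤ T + H + 3 := by rw [ht]; linarith
      have h5 : Real.log (t + 2) ≤ Real.log (T + H + 3) := Real.log_le_log (by linarith) h4
      exact mul_le_mul_of_nonneg_left h5 hC.le
    · intro u hu
      rw [Finset.mem_filter] at hu
      obtain ⟨a1, a2, a3, a4⟩ := hS u hu.1
      have h2 := hfl u
      rw [hu.2] at h2
      refine ⟨by linarith, ?_, ?_⟩
      · rw [abs_le, ht]
        constructor <;> linarith
      · have hu1 : u ≠ 1 := by
          rintro rfl
          simp at a3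
          linarith
        exact (zetaPole_eq_zero_iff hu1).2 a1
  calc ∑ ρ ∈ S, (analyticOrderNatAt riemannZeta ρ : ℝ)
      = ∑ q ∈ Q, ∑ ρ ∈ S.filter (fun ρ => φ ρ = q), (analyticOrderNatAt riemannZeta ρ : ℝ) :=
        (Finset.sum_fiberwise_of_maps_to (fun ρ hρ => Finset.mem_image_of_mem φ hρ) _).symm
    _ ≤ ∑ q ∈ Q, C * Lg := Finset.sum_le_sum hfib
    _ = Q.card * (C * Lg) := by rw [Finset.sum_const, nsmul_eq_mul]
    _ ≤ 16 * B * (C * Lg) := by gcongr
    _ = 16 * C * B * Lg := by ring

end Pool.Agent.H76.CR
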