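import Mathlib
import Pool.Agent.H76.CR.Seen
import Pool.Agent.H76.CR.RareSep
import Pool.Agent.H76.CR.Spread

/-!
# Rare: the zeros with few distinct neighbours are rare in every interval `[T, T+H]`

Apply `seen` with `N = H`: for `ρ ∈ S`, `T ≤ im ρ ≤ T+H`; careful, `seen` needs
`(log |γ|)^C ≤ H` and `γ` may be as large as `T+H`: `log (T+H) ≤ log T + log(1+H) ≤ H^(1/C')+...`, so
with `(log T)^(C') ≤ H`, `C' = 2 C + ...` and `T ≥ C'`, `(log (T+H))^C ≤ H` (two cases `H ≤ T`,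
`log(T+H) ≤ 2 log T`, and `H > T`, `log(T+H) ≤ 2 log H`, `(2 log H)^C ≤ H` for `H` large).
Then `rare_sep` bounds every `1`-separated set of ordinates by `B = H^(10θ)`, `spread` gives
`∑ ≤ C H^(10θ) log(T+H+3) ≤ H^(11θ)` again because `log(T+H+3) ≤ H^(θ/2)`-like for `C'` large
(`log T ≤ H^(1/C')`).  (`1 - θ²/16 * a ≥ 3/4`.)  About 120 lines.
-/

set_option autoImplicit false

open Complex

namespace Pool.Agent.H76.CR

private lemma log_small (p : ℝ) (hp : 0 < p) : ∃ H0 : ℝ, 3 ≤ H0 ∧ ∀ H : ℝ, H0 ≤ H →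
    Real.log H ≤ 1 / 2 * H ^ (1 / p) := by
  have h1 : (fun x : ℝ => Real.log x) =o[Filter.atTop] fun x : ℝ => x ^ (1 / p) :=
    isLittleO_log_rpow_atTop (by positivity)
  have h2 := h1.def (show (0 : ℝ) < 1 / 2 by norm_num)
  obtain ⟨H0, hH0⟩ := Filter.eventually_atTop.1 h2
  refine ⟨max H0 3, le_max_right _ _, fun H hH => ?_⟩
  have h3 := hH0 H ((le_max_left _ _).trans hH)
  have h4 : (3 : ℝ) ≤ H := (le_max_right _ _).trans hH
  rw [Real.norm_eq_abs, Real.norm_eq_abs, abs_of_nonneg (Real.log_nonneg (by linarith)),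
    abs_of_nonneg (by positivity)] at h3
  exact h3

/-- the elementary inequality: `log (T+H+3) ≤ H^(1/p)` -/
private lemma log_le (p : ℝ) (hp : 1 ≤ p) : ∃ C : ℝ, 27 ≤ C ∧ ∀ C1 T H : ℝ, C ≤ C1 → C1 ≤ T →
    Real.log T ^ C1 ≤ H → C1 ≤ H ∧ 3 ≤ Real.log T ∧ Real.log (T + H + 3) ≤ H ^ (1 / p) := by
  obtain ⟨H0, hH3, hH0⟩ := log_small p (by linarith)
  refine ⟨max (2 * p) (max H0 27), (le_max_right _ _).trans (le_max_right _ _), ?_⟩
  intro C1 T H hC hT hH
  have hC2p : 2 * p ≤ C1 := (le_max_left _ _).trans hC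
  have hCr : max H0 27 ≤ C1 := (le_max_right _ _).trans hC
  have hCH0 : H0 ≤ C1 := (le_max_left _ _).trans hCr
  have hC27 : 27 ≤ C1 := (le_max_right _ _).trans hCr
  have hT0 : 0 < T := by linarith
  have hlT : 3 ≤ Real.log T := by
    have h3 : Real.exp 3 = Real.exp 1 ^ 3 := by rw [← Real.exp_nat_mul]; norm_num
    have h4 : Real.exp 1 ^ 3 ≤ 2.7182818286 ^ 3 := by
      have := (Real.exp_pos 1).le
      have := Real.exp_one_lt_d9
      gcongr
    rw [Real.le_log_iff_exp_le hT0, h3]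
    norm_num at h4
    linarith
  have he := Real.exp_one_lt_d9
  have hHC : C1 ≤ H := by
    have h2 : Real.exp 1 ^ C1 ≤ Real.log T ^ C1 :=
      Real.rpow_le_rpow (Real.exp_pos 1).le (by linarith) (by linarith)
    rw [Real.exp_one_rpow] at h2
    have h3 := Real.add_one_le_exp C1
    linarith
  refine ⟨hHC, hlT, ?_⟩
  have hH1 : 3 ≤ H := by linarith
  have hH00 : 0 < H := by linarith
  have h1 := hH0 H (by linarith)
  have h2 : Real.log T ≤ 1 / 2 * H ^ (1 / p) := by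
    have h3 : Real.log T ^ (2 : ℝ) ≤ H ^ (1 / p) := by
      have h4 : Real.log T ^ (2 * p) ≤ H :=
        (Real.rpow_le_rpow_of_exponent_le (by linarith) hC2p).trans hH
      have h5 : (Real.log T ^ (2 * p)) ^ (1 / p) ≤ H ^ (1 / p) :=
        Real.rpow_le_rpow (by positivity) h4 (by positivity)
      rw [← Real.rpow_mul (by linarith)] at h5
      have h6 : 2 * p * (1 / p) = 2 := by field_simp
      rwa [h6] at h5
    have h7 : Real.log T ^ (2 : ℝ) = Real.log T * Real.log T := by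
      rw [show (2 : ℝ) = ((2 : ℕ) : ℝ) by norm_num, Real.rpow_natCast, sq]
    rw [h7] at h3
    nlinarith
  have h3 : Real.log (T + H + 3) ≤ Real.log T + Real.log H := by
    rw [← Real.log_mul (by linarith) (by linarith)]
    apply Real.log_le_log (by linarith)
    nlinarith
  linarith

theorem rare {θ a : ℝ} (hθ : 0 < θ) (hθ1 : θ ≤ 1 / 8) (ha : 0 < a) (ha1 : a ≤ 1 / 16) :
    ∃ c C : ℝ, 0 < c ∧ 1 ≤ C ∧ ∀ (c1 C1 T H : ℝ), c1 ≤ c → C ≤ C1 → C1 ≤ T →
      Real.log T ^ C1 ≤ H → ∀ S : Finset ℂ,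
      (∀ ρ ∈ S, riemannZeta ρ = 0 ∧ 1 - θ ^ 2 / 16 * a ≤ ρ.re ∧ T ≤ ρ.im ∧ ρ.im ≤ T + H ∧
        (nearZeros (4 * a) ρ : ℝ) < c1 * Real.log H) →
      ∑ ρ ∈ S, (analyticOrderNatAt riemannZeta ρ : ℝ) ≤ H ^ (11 * θ) := by
  obtain ⟨cs, Cs, hcs, hCs, hseen⟩ := seen hθ hθ1 ha ha1
  obtain ⟨N0, hN0, hsep⟩ := rare_sep hθ hθ1 ha (by linarith : a ≤ 1)
  obtain ⟨Cp, hCp, hspread⟩ := spread
  set p : ℝ := Cs + 2 / θ with hp
  have hp1 : 1 ≤ p := by
    have : 0 < 2 / θ := by positivity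
    linarith
  obtain ⟨Cl, hCl, hlog⟩ := log_le p hp1
  set M : ℝ := Cp ^ (2 / θ) with hM
  refine ⟨cs, max Cl (max Cs (max N0 M)), hcs, ?_, ?_⟩
  · exact le_trans (by linarith) (le_max_left _ _)
  intro c1 C1 T H hc1 hC1 hT hH S hS
  have hC1l : Cl ≤ C1 := (le_max_left _ _).trans hC1
  have hr1 : max Cs (max N0 M) ≤ C1 := (le_max_right _ _).trans hC1
  have hC1s : Cs ≤ C1 := (le_max_left _ _).trans hr1
  have hr2 : max N0 M ≤ C1 := (le_max_right _ _).trans hr1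
  have hC1N : N0 ≤ C1 := (le_max_left _ _).trans hr2
  have hC1M : M ≤ C1 := (le_max_right _ _).trans hr2
  obtain ⟨hHC, hlT, hY⟩ := hlog C1 T H hC1l hT hH
  set Y : ℝ := Real.log (T + H + 3) with hYdef
  have hH27 : 27 ≤ H := by linarith
  have hH0 : 0 < H := by linarith
  have hH1 : 1 ≤ H := by linarith
  have hT27 : 27 ≤ T := by linarith
  have hY0 : 0 ≤ Y := Real.log_nonneg (by linarith)
  have hlH : 0 ≤ Real.log H := Real.log_nonneg hH1
  have hp0 : 0 < p := by linarith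
  -- two consequences
  have hYs : Y ^ Cs ≤ H := by
    calc Y ^ Cs ≤ (H ^ (1 / p)) ^ Cs := Real.rpow_le_rpow hY0 hY (by linarith)
      _ = H ^ (1 / p * Cs) := (Real.rpow_mul hH0.le _ _).symm
      _ ≤ H ^ (1 : ℝ) := by
          apply Real.rpow_le_rpow_of_exponent_le hH1
          rw [one_div, inv_mul_le_iff₀ hp0, mul_one, hp]
          have : 0 < 2 / θ := by positivity
          linarith
      _ = H := Real.rpow_one H
  have hYθ : Cp * Y ≤ H ^ θ := by
    have h1 : Y ≤ H ^ (θ / 2) := by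
      refine hY.trans (Real.rpow_le_rpow_of_exponent_le hH1 ?_)
      have h2 : 2 / θ ≤ p := by rw [hp]; linarith
      calc 1 / p ≤ 1 / (2 / θ) := one_div_le_one_div_of_le (by positivity) h2
        _ = θ / 2 := one_div_div 2 θ
    have h2 : Cp ≤ H ^ (θ / 2) := by
      have h3 : M ≤ H := hC1M.trans hHC
      have h4 : M ^ (θ / 2) ≤ H ^ (θ / 2) := Real.rpow_le_rpow (by positivity) h3 (by positivity)
      rw [hM, ← Real.rpow_mul hCp.le] at h4
      have h5 : 2 / θ * (θ / 2) = 1 := by field_simp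
      rwa [h5, Real.rpow_one] at h4
    calc Cp * Y ≤ H ^ (θ / 2) * H ^ (θ / 2) := by gcongr
      _ = H ^ θ := by rw [← Real.rpow_add hH0]; ring_nf
  have hδ : θ ^ 2 / 16 * a ≤ 1 / 4 := by
    have h1 : θ ^ 2 ≤ 1 := by nlinarith
    have h2 : θ ^ 2 / 16 * a ≤ 1 / 16 * (1 / 16) := by gcongr
    linarith
  have hbound := hspread T H (H ^ (10 * θ)) S (by linarith) hH0.le (by positivity)
    (fun ρ hρ => by
      obtain ⟨a1, a2, a3, a4, -⟩ := hS ρ hρ
      exact ⟨a1, by linarith, a3, a4⟩)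
    (fun X hX1 hX2 => by
      refine hsep H T X (hC1N.trans hHC) ?_ hX2 ?_
      · intro x hx
        obtain ⟨ρ, hρ, rfl⟩ := hX1 x hx
        obtain ⟨-, -, a3, a4, -⟩ := hS ρ hρ
        exact ⟨a3, a4⟩
      · intro x hx
        obtain ⟨ρ, hρ, rfl⟩ := hX1 x hx
        obtain ⟨a1, a2, a3, a4, a5⟩ := hS ρ hρ
        have him : 0 < ρ.im := by linarith
        have habs : |ρ.im| = ρ.im := abs_of_pos him
        refine hseen ρ H a1 a2 (by rw [habs]; linarith) ?_ ?_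
        · rw [habs]
          refine le_trans (Real.rpow_le_rpow (Real.log_nonneg (by linarith)) ?_ (by linarith)) hYs
          exact Real.log_le_log him (by linarith)
        · exact lt_of_lt_of_le a5 (by gcongr))
  calc ∑ ρ ∈ S, (analyticOrderNatAt riemannZeta ρ : ℝ) ≤ Cp * H ^ (10 * θ) * Y := hbound
    _ = H ^ (10 * θ) * (Cp * Y) := by ring
    _ ≤ H ^ (10 * θ) * H ^ θ := by gcongr
    _ = H ^ (11 * θ) := by rw [← Real.rpow_add hH0]; ring_nf

end Pool.Agent.H76.CR
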