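import Mathlib
import Pool.Agent.H76.CR.Rare
import Pool.Agent.H76.CR.PartSum
import Pool.Agent.H76.CR.Large

/-!
# Main
-/

set_option autoImplicit false

open Complex

namespace Pool.Agent.H76.CR

theorem main (ε : ℝ) (hε : 0 < ε) (hε1 : ε ≤ 1 / 4) :
    ∃ δ c C : ℝ, 0 < δ ∧ 0 < c ∧ 0 < C ∧
      (∀ T H : ℝ, C ≤ T → Real.log T ^ C ≤ H → ∀ S : Finset ℂ,
        (∀ ρ ∈ S, riemannZeta ρ = 0 ∧ 1 - δ ≤ ρ.re ∧ T ≤ ρ.im ∧ ρ.im ≤ T + H ∧
          (nearZeros ε ρ : ℝ) < c * Real.log H) →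
        ∑ ρ ∈ S, (analyticOrderNatAt riemannZeta ρ : ℝ) ≤ H ^ ε) ∧
      ∀ (ρ : ℂ) (N : ℝ), riemannZeta ρ = 0 → 1 - δ ≤ ρ.re → C ≤ ρ.im → Real.log ρ.im ^ C ≤ N →
        (c * Real.log N ≤ nearZeros ε ρ ∧ ∃ s : ℂ, ‖s - ρ‖ ≤ 5 * ε ∧ N ^ c ≤ ‖riemannZeta s‖) ∨
        ∃ M : ℕ, N ^ (1 - ε) ≤ M ∧ (M : ℝ) ≤ N ∧
          (M : ℝ) ^ (1 - ε) ≤ ‖∑ p ∈ (Finset.Icc 1 M).filter Nat.Prime, (p : ℂ) ^ (-(ρ.im * I))‖ := by
  set a : ℝ := ε / 4 with ha
  set θ : ℝ := ε / 28 with hθ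
  have ha0 : 0 < a := by positivity
  have ha1 : a ≤ 1 / 16 := by rw [ha]; linarith
  have hθ0 : 0 < θ := by positivity
  have hθ1 : θ ≤ 1 / 8 := by rw [hθ]; linarith
  have h4a : 4 * a = ε := by rw [ha]; ring
  obtain ⟨c1, C1, hc1, hC1, hrare⟩ := rare hθ0 hθ1 ha0 ha1
  obtain ⟨c2, C2, hc2, hC2, hseen⟩ := seen hθ0 hθ1 ha0 ha1
  obtain ⟨N0, hN0, hpart⟩ := part_sum hθ0 ha0 (by linarith) hε hε1 (by rw [hθ]; linarith)
  obtain ⟨c3, C3, hc3, hC3, hlarge⟩ := large hε hε1 hc2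
  set δ : ℝ := min (θ ^ 2 / 16 * a) (ε / 2) with hδ
  set c : ℝ := min c1 (min c2 c3) with hc
  have hcc1 : c ≤ c1 := min_le_left _ _
  have hcc2 : c ≤ c2 := (min_le_right _ _).trans (min_le_left _ _)
  have hcc3 : c ≤ c3 := (min_le_right _ _).trans (min_le_right _ _)
  have hc0 : 0 < c := lt_min hc1 (lt_min hc2 hc3)
  set C : ℝ := max C1 (max C2 (max C3 (max N0 27))) with hC
  have hCC1 : C1 ≤ C := le_max_left _ _
  have hCm : max C2 (max C3 (max N0 27)) ≤ C := le_max_right _ _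
  have hCC2 : C2 ≤ C := (le_max_left _ _).trans hCm
  have hCm2 : max C3 (max N0 27) ≤ C := (le_max_right _ _).trans hCm
  have hCC3 : C3 ≤ C := (le_max_left _ _).trans hCm2
  have hCN0 : max N0 27 ≤ C := (le_max_right _ _).trans hCm2
  have hCN : N0 ≤ C := (le_max_left _ _).trans hCN0
  have hC27 : 27 ≤ C := (le_max_right _ _).trans hCN0
  have hC0 : 0 < C := by linarith
  -- logarithms
  have hlog : ∀ t : ℝ, C ≤ t → Real.exp 1 ≤ Real.log t := by
    intro t ht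
    have h1 := Real.exp_one_lt_d9
    have h2 : Real.exp 3 ≤ t := by
      have h3 : Real.exp 3 = Real.exp 1 ^ 3 := by rw [← Real.exp_nat_mul]; norm_num
      have h4 : Real.exp 1 ^ 3 ≤ 2.7182818286 ^ 3 := by
        have := (Real.exp_pos 1).le
        gcongr
      rw [h3]
      norm_num at h4
      linarith
    have h5 : (3 : ℝ) ≤ Real.log t := by
      rw [Real.le_log_iff_exp_le (by linarith)]
      exact h2
    linarith
  have hpow : ∀ t N : ℝ, C ≤ t → Real.log t ^ C ≤ N → C ≤ N := by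
    intro t N ht hN
    have h1 := hlog t ht
    have h2 : Real.exp 1 ^ C ≤ Real.log t ^ C :=
      Real.rpow_le_rpow (Real.exp_pos 1).le h1 hC0.le
    rw [Real.exp_one_rpow] at h2
    have h3 := Real.add_one_le_exp C
    linarith
  have hpow2 : ∀ t N C' : ℝ, C' ≤ C → C ≤ t → Real.log t ^ C ≤ N → Real.log t ^ C' ≤ N := by
    intro t N C' hC' ht hN
    have h1 := hlog t ht
    have h2 : (1 : ℝ) ≤ Real.exp 1 := Real.one_le_exp (by norm_num)
    exact (Real.rpow_le_rpow_of_exponent_le (by linarith) hC').trans hN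
  refine ⟨δ, c, C, ?_, hc0, hC0, ?_, ?_⟩
  · exact lt_min (by positivity) (by positivity)
  · intro T H hT hH S hS
    have hHC := hpow T H hT hH
    have h1 := hrare c C T H hcc1 hCC1 hT hH S (fun ρ hρ => by
      obtain ⟨a1, a2, a3, a4, a5⟩ := hS ρ hρ
      refine ⟨a1, ?_, a3, a4, ?_⟩
      · have := min_le_left (θ ^ 2 / 16 * a) (ε / 2)
        linarith
      · rw [h4a]; exact a5)
    refine h1.trans ?_
    apply Real.rpow_le_rpow_of_exponent_le (by linarith)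
    rw [hθ]
    linarith
  · intro ρ N hρ hre him hN
    have hNC := hpow ρ.im N him hN
    have him0 : 0 < ρ.im := by linarith
    have habs : |ρ.im| = ρ.im := abs_of_pos him0
    have hlN : 0 ≤ Real.log N := Real.log_nonneg (by linarith)
    by_cases hnear : c2 * Real.log N ≤ nearZeros ε ρ
    · left
      refine ⟨le_trans (by gcongr) hnear, ?_⟩
      obtain ⟨s, hs1, hs2⟩ := hlarge ρ N hρ (by
        have := min_le_right (θ ^ 2 / 16 * a) (ε / 2)
        linarith) (by rw [habs]; linarith) (by linarith) hnear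
      refine ⟨s, hs1, le_trans ?_ hs2⟩
      exact Real.rpow_le_rpow_of_exponent_le (by linarith) hcc3
    · right
      rw [not_le] at hnear
      obtain ⟨k, hk1, hk2⟩ := hseen ρ N hρ (by
        have := min_le_left (θ ^ 2 / 16 * a) (ε / 2)
        linarith) (by rw [habs]; linarith) (by
        rw [habs]; exact hpow2 ρ.im N C2 hCC2 him hN) (by rw [h4a]; exact hnear)
      by_contra hcon
      push Not at hcon
      have h3 := hpart N ρ.im k (by linarith) hk1 (fun M hM1 hM2 => hcon M hM1 hM2)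
      have h4 : N ^ (-(ε / 4)) ≤ N ^ (-θ) := by
        apply Real.rpow_le_rpow_of_exponent_le (by linarith)
        rw [hθ]; linarith
      linarith

end Pool.Agent.H76.CR
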